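import Mathlib

/-!
# Points `2 ^ i m / p` with `p` prime: their number, separation and distribution
-/

set_option autoImplicit false

namespace Pool.Agent.Q273.CJ

open Set Filter Topology

/-- increasing enumeration of a finite set of real numbers -/
lemma enum_real (S : Finset ℝ) (δ : ℝ) (hsep : ∀ x ∈ S, ∀ y ∈ S, x < y → x + δ ≤ y) :
    ∃ φ : ℕ → ℝ, (∀ j, j < S.card → φ j ∈ S) ∧ ∀ i j : ℕ, i < j → j < S.card →
      φ i < φ j ∧ φ i + ((j : ℝ) - i) * δ ≤ φ j ∧
      j - i + 1 ≤ (S.filter fun x => φ i ≤ x ∧ x ≤ φ j).card := by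
  classical
  set e := S.orderEmbOfFin (rfl : S.card = S.card) with he
  obtain ⟨φ, hφ⟩ : ∃ φ : ℕ → ℝ, ∀ j (h : j < S.card), φ j = e ⟨j, h⟩ :=
    ⟨fun j => if h : j < S.card then e ⟨j, h⟩ else 0, fun j h => dif_pos h⟩
  have hmem : ∀ j, j < S.card → φ j ∈ S := by
    intro j hj
    rw [hφ j hj]
    exact Finset.orderEmbOfFin_mem _ _ _
  have hlt : ∀ i j : ℕ, i < j → j < S.card → φ i < φ j := by
    intro i j hij hj
    rw [hφ i (by omega), hφ j hj]
    exact e.strictMono hij
  refine ⟨φ, hmem, fun i j hij hj => ⟨hlt i j hij hj, ?_, ?_⟩⟩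
  · induction j, hij using Nat.le_induction with
    | base =>
      have h1 := hsep _ (hmem i (by omega)) _ (hmem (i + 1) hj) (hlt i (i + 1) (by omega) hj)
      push_cast
      linarith
    | succ j hij ih =>
      have h1 := ih (by omega)
      have h2 := hsep _ (hmem j (by omega)) _ (hmem (j + 1) hj) (hlt j (j + 1) (by omega) hj)
      push_cast
      linarith
  · have h1 : ((Finset.Icc i j).image φ).card = j - i + 1 := by
      rw [Finset.card_image_of_injOn]
      · rw [Nat.card_Icc]; omega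
      · intro x hx y hy hxy
        simp only [Finset.coe_Icc, Set.mem_Icc] at hx hy
        rcases lt_trichotomy x y with h | h | h
        · exact absurd hxy (hlt x y h (by omega)).ne
        · exact h
        · exact absurd hxy (hlt y x h (by omega)).ne'
    rw [← h1]
    apply Finset.card_le_card
    intro x hx
    rw [Finset.mem_image] at hx
    obtain ⟨k, hk, rfl⟩ := hx
    rw [Finset.mem_Icc] at hk
    rw [Finset.mem_filter]
    refine ⟨hmem k (by omega), ?_, ?_⟩
    · rcases hk.1.eq_or_lt with h | h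
      · rw [h]
      · exact (hlt i k h (by omega)).le
    · rcases hk.2.eq_or_lt with h | h
      · rw [h]
      · exact (hlt k j h (by omega)).le

/-- the primes `p` with `N / 4 < p ≤ N` -/
def primes (N : ℕ) : Finset ℕ := (Finset.range (N + 1)).filter fun p => p.Prime ∧ N < 4 * p

lemma mem_primes {N p : ℕ} : p ∈ primes N ↔ p.Prime ∧ N < 4 * p ∧ p ≤ N := by
  unfold primes
  rw [Finset.mem_filter, Finset.mem_range]
  constructor
  · rintro ⟨h1, h2, h3⟩; exact ⟨h2, h3, by omega⟩
  · rintro ⟨h1, h2, h3⟩; exact ⟨by omega, h1, h2⟩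

lemma card_primes_le (N : ℕ) : (primes N).card ≤ N + 1 :=
  (Finset.card_filter_le _ _).trans (Finset.card_range _).le

/-- Chebyshev -/
lemma card_primes : ∀ᶠ N : ℕ in atTop, (N : ℝ) / (4 * Real.log N) ≤ ((primes N).card : ℝ) := by
  have h1 : ∀ᶠ x : ℝ in atTop, Real.log (x + 1) + 2 * √x * Real.log x ≤ x / 16 := by
    have h2 : (fun x : ℝ => Real.log x) =o[atTop] fun x => x ^ (1 / 4 : ℝ) :=
      isLittleO_log_rpow_atTop (by norm_num)
    have h3 := h2.bound (by norm_num : (0 : ℝ) < 1 / 100)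
    have h4 : ∀ᶠ x : ℝ in atTop, (1 : ℝ) ≤ x ^ (1 / 4 : ℝ) :=
      (tendsto_rpow_atTop (by norm_num)).eventually_ge_atTop 1
    filter_upwards [h3, h4, eventually_ge_atTop (2 : ℝ),
      (tendsto_rpow_atTop (by norm_num : (0 : ℝ) < 1 / 4)).eventually_ge_atTop 4]
      with x h5 h6 h7 h8
    have hx0 : 0 < x := by linarith
    set y := x ^ (1 / 4 : ℝ) with hy
    have e1 : √x = y ^ 2 := by
      rw [Real.sqrt_eq_rpow, hy, ← Real.rpow_natCast, ← Real.rpow_mul hx0.le]
      norm_num
    have e2 : x = y ^ 4 := by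
      rw [hy, ← Real.rpow_natCast, ← Real.rpow_mul hx0.le]
      norm_num
    have hl : Real.log x ≤ y / 100 := by
      rw [Real.norm_eq_abs, Real.norm_eq_abs, abs_of_nonneg (by positivity : (0:ℝ) ≤ y)] at h5
      have := le_abs_self (Real.log x)
      linarith
    have hl0 : 0 ≤ Real.log x := Real.log_nonneg (by linarith)
    have h9 : Real.log (x + 1) ≤ Real.log x + 1 := by
      have h10 : x + 1 ≤ x * Real.exp 1 := by
        have := Real.add_one_le_exp (1 : ℝ)
        nlinarith
      calc Real.log (x + 1) ≤ Real.log (x * Real.exp 1) := Real.log_le_log (by linarith) h10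
        _ = _ := by rw [Real.log_mul hx0.ne' (Real.exp_pos 1).ne', Real.log_exp]
    rw [e1, e2] at *
    have h11 : 2 * y ^ 2 * Real.log (y ^ 4) ≤ 2 * y ^ 2 * (y / 100) :=
      mul_le_mul_of_nonneg_left hl (by positivity)
    have h12 : y ^ 3 ≤ y ^ 4 := pow_le_pow_right₀ h6 (by norm_num)
    have h13 : y ≤ y ^ 4 := by
      calc y = y ^ 1 := (pow_one y).symm
        _ ≤ y ^ 4 := pow_le_pow_right₀ h6 (by norm_num)
    have h14 : (4 : ℝ) ^ 4 ≤ y ^ 4 := pow_le_pow_left₀ (by norm_num) h8 4
    nlinarith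
  filter_upwards [tendsto_natCast_atTop_atTop.eventually h1, eventually_ge_atTop 16] with N hN hN16
  have hN0 : (16 : ℝ) ≤ N := by exact_mod_cast hN16
  have hlog : 0 < Real.log N := Real.log_pos (by linarith)
  have t1 := Chebyshev.theta_ge N
  have t2 := Chebyshev.theta_le_log4_mul_x (x := (N : ℝ) / 4) (by positivity)
  have t3 : Real.log 4 = 2 * Real.log 2 := by
    rw [show (4 : ℝ) = 2 ^ 2 by norm_num, Real.log_pow]; norm_num
  rw [t3] at t2
  have t4 : Chebyshev.theta (N : ℝ) ≤ Chebyshev.theta ((N : ℝ) / 4) +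
      ∑ p ∈ primes N, Real.log (p : ℝ) := by
    unfold Chebyshev.theta
    rw [Nat.floor_natCast]
    have hsub : (Finset.Ioc 0 N).filter Nat.Prime ⊆
        ((Finset.Ioc 0 ⌊(N : ℝ) / 4⌋₊).filter Nat.Prime) ∪ primes N := by
      intro p hp
      rw [Finset.mem_filter, Finset.mem_Ioc] at hp
      rw [Finset.mem_union, Finset.mem_filter, Finset.mem_Ioc, mem_primes]
      rcases Nat.lt_or_ge N (4 * p) with h | h
      · exact Or.inr ⟨hp.2, h, hp.1.2⟩
      · refine Or.inl ⟨⟨hp.1.1, Nat.le_floor ?_⟩, hp.2⟩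
        have : (4 : ℝ) * p ≤ N := by exact_mod_cast h
        linarith
    refine (Finset.sum_le_sum_of_subset_of_nonneg hsub ?_).trans ?_
    · intro p hp _
      apply Real.log_natCast_nonneg
    · rw [← Finset.sum_union_inter]
      have : 0 ≤ ∑ i ∈ ((Finset.Ioc 0 ⌊(N : ℝ) / 4⌋₊).filter Nat.Prime) ∩ primes N,
          Real.log (i : ℝ) := Finset.sum_nonneg fun p _ => Real.log_natCast_nonneg p
      linarith
  have t5 : ∑ p ∈ primes N, Real.log (p : ℝ) ≤ (primes N).card * Real.log N := by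
    rw [← nsmul_eq_mul]
    apply Finset.sum_le_card_nsmul
    intro p hp
    have h2 := mem_primes.1 hp
    exact Real.log_le_log (by exact_mod_cast h2.1.pos) (by exact_mod_cast h2.2.2)
  have t6 : (0.69 : ℝ) < Real.log 2 := by
    have := Real.log_two_gt_d9
    linarith
  rw [div_le_iff₀ (by positivity)]
  have t7 : (N : ℝ) / 4 ≤ (primes N).card * Real.log N := by nlinarith
  nlinarith

end Pool.Agent.Q273.CJ
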