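import Mathlib
import Pool.Agent.Q273.CJ.Pts

/-!
# The fractions `2 ^ i m / p` in an interval
-/

set_option autoImplicit false

namespace Pool.Agent.Q273.CJ

open Set Filter Topology

/-- the fractions `2 ^ i m / p`, `p` prime, `N / 4 < p ≤ N`, in `[w, v]` -/
noncomputable def F (i N : ℕ) (w v : ℝ) : Finset ℝ :=
  (primes N).biUnion fun p => (Finset.Icc ⌈w * p / 2 ^ i⌉₊ ⌊v * p / 2 ^ i⌋₊).image
    fun m : ℕ => (2 : ℝ) ^ i * m / p

lemma mem_F {i N : ℕ} {w v r : ℝ} (hw : 0 < w) (hv : v < 1) (hwv : w ≤ v) :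
    r ∈ F i N w v ↔ ∃ p m : ℕ, p ∈ primes N ∧ 0 < m ∧ 2 ^ i * m < p ∧ r = 2 ^ i * m / p ∧
      w ≤ r ∧ r ≤ v := by
  unfold F
  simp only [Finset.mem_biUnion, Finset.mem_image, Finset.mem_Icc]
  have h2 : (0 : ℝ) < 2 ^ i := by positivity
  constructor
  · rintro ⟨p, hp, m, ⟨h3, h4⟩, rfl⟩
    have hp0 : (0 : ℝ) < p := by exact_mod_cast (mem_primes.1 hp).1.pos
    have h5 : w * p / 2 ^ i ≤ m := Nat.ceil_le.1 h3
    have h6 : (m : ℝ) ≤ v * p / 2 ^ i := (Nat.le_floor_iff (by have := hw.trans_le hwv; positivity)).1 h4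
    rw [div_le_iff₀ h2] at h5
    rw [le_div_iff₀ h2] at h6
    have h7 : w ≤ 2 ^ i * (m : ℝ) / p := by rw [le_div_iff₀ hp0]; linarith
    have h8 : 2 ^ i * (m : ℝ) / p ≤ v := by rw [div_le_iff₀ hp0]; linarith
    refine ⟨p, m, hp, ?_, ?_, rfl, h7, h8⟩
    · rcases Nat.eq_zero_or_pos m with h | h
      · exfalso
        rw [h] at h7
        simp at h7
        linarith
      · exact h
    · have h9 : (2 : ℝ) ^ i * m < p := by
        rw [div_le_iff₀ hp0] at h8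
        nlinarith
      exact_mod_cast h9
  · rintro ⟨p, m, hp, -, -, rfl, h7, h8⟩
    have hp0 : (0 : ℝ) < p := by exact_mod_cast (mem_primes.1 hp).1.pos
    rw [le_div_iff₀ hp0] at h7
    rw [div_le_iff₀ hp0] at h8
    refine ⟨p, hp, m, ⟨Nat.ceil_le.2 ?_, Nat.le_floor ?_⟩, rfl⟩
    · rw [div_le_iff₀ h2]; linarith
    · rw [le_div_iff₀ h2]; linarith

/-- two of the fractions are equal only if they are given by the same data -/
lemma frac_inj {i p m p' m' : ℕ} (hp : p.Prime) (hp' : p'.Prime) (hm : 0 < m)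
    (hlt : 2 ^ i * m < p) (hlt' : 2 ^ i * m' < p') (h : m * p' = m' * p) : p = p' ∧ m = m' := by
  have h1 : p = p' := by
    by_contra hne
    have hcop : Nat.Coprime p p' := (Nat.coprime_primes hp hp').2 hne
    have h2 : p ∣ m * p' := h ▸ dvd_mul_left p m'
    have h3 : p ∣ m := hcop.dvd_of_dvd_mul_right h2
    have h4 := Nat.le_of_dvd hm h3
    have h5 : 1 ≤ 2 ^ i := Nat.one_le_two_pow
    nlinarith
  subst h1
  exact ⟨rfl, Nat.eq_of_mul_eq_mul_right hp.pos h⟩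

lemma F_sep {i N : ℕ} {w v : ℝ} (hw : 0 < w) (hv : v < 1) (hwv : w ≤ v) :
    ∀ x ∈ F i N w v, ∀ y ∈ F i N w v, x < y → x + 2 ^ i / (N : ℝ) ^ 2 ≤ y := by
  intro x hx y hy hxy
  rw [mem_F hw hv hwv] at hx hy
  obtain ⟨p, m, hp, -, -, rfl, -, -⟩ := hx
  obtain ⟨p', m', hp', -, -, rfl, -, -⟩ := hy
  have hp0 : (0 : ℝ) < p := by exact_mod_cast (mem_primes.1 hp).1.pos
  have hp0' : (0 : ℝ) < p' := by exact_mod_cast (mem_primes.1 hp').1.pos
  have hpN : (p : ℝ) ≤ N := by exact_mod_cast (mem_primes.1 hp).2.2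
  have hpN' : (p' : ℝ) ≤ N := by exact_mod_cast (mem_primes.1 hp').2.2
  have h2 : (0 : ℝ) < 2 ^ i := by positivity
  rw [div_lt_div_iff₀ hp0 hp0'] at hxy
  have h3 : (m : ℝ) * p' < m' * p := by
    have h4 : (2 : ℝ) ^ i * (m * p') < 2 ^ i * (m' * p) := by linarith
    exact lt_of_mul_lt_mul_left h4 h2.le
  have h4 : m * p' + 1 ≤ m' * p := by
    have : m * p' < m' * p := by exact_mod_cast h3
    omega
  have h5 : (m : ℝ) * p' + 1 ≤ m' * p := by exact_mod_cast h4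
  have h6 : (2 : ℝ) ^ i / (N : ℝ) ^ 2 ≤ 2 ^ i / (p * p') := by
    apply div_le_div_of_nonneg_left h2.le (by positivity)
    nlinarith
  have h7 : 2 ^ i * (m : ℝ) / p + 2 ^ i / (p * p') ≤ 2 ^ i * (m' : ℝ) / p' := by
    rw [div_add_div _ _ hp0.ne' (by positivity), div_le_div_iff₀ (by positivity) hp0']
    have e : (2 ^ i * (m : ℝ) * (p * p') + p * 2 ^ i) * p' =
        (2 ^ i * (p * p')) * (m * p' + 1) := by ring
    have e' : 2 ^ i * (m' : ℝ) * (p * (p * p')) = (2 ^ i * (p * p')) * (m' * p) := by ring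
    rw [e, e']
    exact mul_le_mul_of_nonneg_left h5 (by positivity)
  linarith

lemma card_Icc_le {a b : ℝ} (ha : 0 ≤ a) (hab : a ≤ b) :
    ((Finset.Icc ⌈a⌉₊ ⌊b⌋₊).card : ℝ) ≤ b - a + 1 := by
  rw [Nat.card_Icc]
  have h1 := Nat.floor_le (ha.trans hab)
  have h2 := Nat.le_ceil a
  rcases le_or_gt ⌈a⌉₊ (⌊b⌋₊ + 1) with h | h
  · rw [Nat.cast_sub h]
    push_cast
    linarith
  · rw [Nat.sub_eq_zero_of_le h.le]
    push_cast
    linarith

lemma le_card_Icc {a b : ℝ} (ha : 0 ≤ a) :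
    b - a - 1 ≤ ((Finset.Icc ⌈a⌉₊ ⌊b⌋₊).card : ℝ) := by
  rw [Nat.card_Icc]
  have h1 := Nat.lt_floor_add_one b
  have h2 := Nat.ceil_lt_add_one ha
  rcases le_or_gt ⌈a⌉₊ (⌊b⌋₊ + 1) with h | h
  · rw [Nat.cast_sub h]
    push_cast
    linarith
  · rw [Nat.sub_eq_zero_of_le h.le]
    have h3 : ((⌊b⌋₊ + 1 : ℕ) : ℝ) < (⌈a⌉₊ : ℝ) := by exact_mod_cast h
    push_cast at h3 ⊢
    linarith

lemma le_card_F {i N : ℕ} {w v : ℝ} (hw : 0 < w) (hv : v < 1) (hwv : w ≤ v) :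
    ((primes N).card : ℝ) * ((v - w) * N / (4 * 2 ^ i) - 1) ≤ ((F i N w v).card : ℝ) := by
  classical
  have h2 : (0 : ℝ) < 2 ^ i := by positivity
  have hkey : ∀ p ∈ primes N, ∀ m ∈ Finset.Icc ⌈w * p / 2 ^ i⌉₊ ⌊v * p / 2 ^ i⌋₊,
      0 < m ∧ 2 ^ i * m < p := by
    intro p hp m hm
    rw [Finset.mem_Icc] at hm
    have hp0 : (0 : ℝ) < p := by exact_mod_cast (mem_primes.1 hp).1.pos
    have h5 : w * p / 2 ^ i ≤ m := Nat.ceil_le.1 hm.1
    have h6 : (m : ℝ) ≤ v * p / 2 ^ i := (Nat.le_floor_iff (by have := hw.trans_le hwv; positivity)).1 hm.2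
    rw [div_le_iff₀ h2] at h5
    rw [le_div_iff₀ h2] at h6
    constructor
    · rcases Nat.eq_zero_or_pos m with h | h
      · exfalso
        rw [h] at h5
        simp at h5
        nlinarith
      · exact h
    · have h9 : (2 : ℝ) ^ i * m < p := by nlinarith
      exact_mod_cast h9
  unfold F
  rw [Finset.card_biUnion]
  · push_cast
    have h3 : ∀ p ∈ primes N, (v - w) * N / (4 * 2 ^ i) - 1 ≤
        ((((Finset.Icc ⌈w * p / 2 ^ i⌉₊ ⌊v * p / 2 ^ i⌋₊).image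
          fun m : ℕ => (2 : ℝ) ^ i * m / p).card : ℕ) : ℝ) := by
      intro p hp
      have hp0 : (0 : ℝ) < p := by exact_mod_cast (mem_primes.1 hp).1.pos
      have hpN : (N : ℝ) < 4 * p := by exact_mod_cast (mem_primes.1 hp).2.1
      rw [Finset.card_image_of_injOn]
      · refine le_trans ?_ (le_card_Icc (by positivity))
        have h4 : (v - w) * N / (4 * 2 ^ i) ≤ v * p / 2 ^ i - w * p / 2 ^ i := by
          rw [← sub_div, ← sub_mul, div_le_div_iff₀ (by positivity) h2]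
          have h5 : (v - w) * N ≤ (v - w) * (4 * p) :=
            mul_le_mul_of_nonneg_left hpN.le (by linarith)
          nlinarith
        linarith
      · intro m _ m' _ h
        simp only at h
        rw [div_left_inj' hp0.ne'] at h
        have := mul_left_cancel₀ h2.ne' h
        exact_mod_cast this
    calc ((primes N).card : ℝ) * ((v - w) * N / (4 * 2 ^ i) - 1)
        = ∑ _p ∈ primes N, ((v - w) * N / (4 * 2 ^ i) - 1) := by
          rw [Finset.sum_const, nsmul_eq_mul]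
      _ ≤ _ := Finset.sum_le_sum h3
  · intro p hp p' hp' hne
    simp only [Function.onFun]
    rw [Finset.disjoint_left]
    intro x hx hx'
    rw [Finset.mem_image] at hx hx'
    obtain ⟨m, hm, rfl⟩ := hx
    obtain ⟨m', hm', h⟩ := hx'
    have hp1 := mem_primes.1 hp
    have hp1' := mem_primes.1 hp'
    have hp0 : (0 : ℝ) < p := by exact_mod_cast hp1.1.pos
    have hp0' : (0 : ℝ) < p' := by exact_mod_cast hp1'.1.pos
    rw [div_eq_div_iff hp0'.ne' hp0.ne'] at h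
    have h5 : (m' : ℝ) * p = m * p' := by
      have : (2 : ℝ) ^ i * (m' * p) = 2 ^ i * (m * p') := by linarith
      exact mul_left_cancel₀ h2.ne' this
    have h6 : m * p' = m' * p := by exact_mod_cast h5.symm
    exact hne (frac_inj hp1.1 hp1'.1 (hkey p hp m hm).1 (hkey p hp m hm).2
      (hkey p' hp' m' hm').2 h6).1

lemma card_filter_F {i N : ℕ} {w v x y : ℝ} (hx : 0 ≤ x) (hxy : x ≤ y) :
    (((F i N w v).filter fun r => x ≤ r ∧ r ≤ y).card : ℝ) ≤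
      ((primes N).card : ℝ) * ((y - x) * N / 2 ^ i + 1) := by
  classical
  have h2 : (0 : ℝ) < 2 ^ i := by positivity
  unfold F
  rw [Finset.filter_biUnion]
  have h1 := (Finset.card_biUnion_le (s := primes N) (t := fun p =>
    ((Finset.Icc ⌈w * p / 2 ^ i⌉₊ ⌊v * p / 2 ^ i⌋₊).image
      fun m : ℕ => (2 : ℝ) ^ i * m / p).filter fun r => x ≤ r ∧ r ≤ y))
  have h3 : ∀ p ∈ primes N, ((((Finset.Icc ⌈w * p / 2 ^ i⌉₊ ⌊v * p / 2 ^ i⌋₊).image
      fun m : ℕ => (2 : ℝ) ^ i * m / p).filter fun r => x ≤ r ∧ r ≤ y).card : ℝ) ≤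
      (y - x) * N / 2 ^ i + 1 := by
    intro p hp
    have hp0 : (0 : ℝ) < p := by exact_mod_cast (mem_primes.1 hp).1.pos
    have hpN : (p : ℝ) ≤ N := by exact_mod_cast (mem_primes.1 hp).2.2
    have h4 : (((Finset.Icc ⌈w * p / 2 ^ i⌉₊ ⌊v * p / 2 ^ i⌋₊).image
      fun m : ℕ => (2 : ℝ) ^ i * m / p).filter fun r => x ≤ r ∧ r ≤ y) ⊆
        (Finset.Icc ⌈x * p / 2 ^ i⌉₊ ⌊y * p / 2 ^ i⌋₊).image
      fun m : ℕ => (2 : ℝ) ^ i * m / p := by
      intro r hr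
      rw [Finset.mem_filter, Finset.mem_image] at hr
      obtain ⟨⟨m, hm, rfl⟩, h7, h8⟩ := hr
      rw [le_div_iff₀ hp0] at h7
      rw [div_le_iff₀ hp0] at h8
      rw [Finset.mem_image]
      refine ⟨m, Finset.mem_Icc.2 ⟨Nat.ceil_le.2 ?_, Nat.le_floor ?_⟩, rfl⟩
      · rw [div_le_iff₀ h2]; linarith
      · rw [le_div_iff₀ h2]; linarith
    have h5 := (Finset.card_le_card h4).trans Finset.card_image_le
    have h6 : ((Finset.Icc ⌈x * p / 2 ^ i⌉₊ ⌊y * p / 2 ^ i⌋₊).card : ℝ) ≤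
        y * p / 2 ^ i - x * p / 2 ^ i + 1 := by
      apply card_Icc_le (by positivity)
      gcongr
    have h7 : y * p / 2 ^ i - x * p / 2 ^ i ≤ (y - x) * N / 2 ^ i := by
      rw [← sub_div, ← sub_mul]
      gcongr
    calc _ ≤ ((Finset.Icc ⌈x * p / 2 ^ i⌉₊ ⌊y * p / 2 ^ i⌋₊).card : ℝ) := by exact_mod_cast h5
      _ ≤ _ := by linarith
  calc _ ≤ ((∑ p ∈ primes N, (((Finset.Icc ⌈w * p / 2 ^ i⌉₊ ⌊v * p / 2 ^ i⌋₊).image
      fun m : ℕ => (2 : ℝ) ^ i * m / p).filter fun r => x ≤ r ∧ r ≤ y).card : ℕ) : ℝ) := by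
        exact_mod_cast h1
    _ ≤ ∑ _p ∈ primes N, ((y - x) * N / 2 ^ i + 1) := by
        push_cast
        exact Finset.sum_le_sum h3
    _ = _ := by rw [Finset.sum_const, nsmul_eq_mul]

end Pool.Agent.Q273.CJ
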