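import Mathlib
import Pool.Agent.Q273.CJ.Fr

/-!
# The fractions `ρ (3 m + 1) / p` in an interval
-/

set_option autoImplicit false

namespace Pool.Agent.Q273.CJ

open Set Filter Topology

/-- the fractions `ρ (3 m + 1) / p`, `p` prime, `Y / 4 < p ≤ Y`, in `[w, v]` -/
noncomputable def G (ρ : ℝ) (Y : ℕ) (w v : ℝ) : Finset ℝ :=
  (primes Y).biUnion fun p => (Finset.Icc ⌈(w * p / ρ - 1) / 3⌉₊ ⌊(v * p / ρ - 1) / 3⌋₊).image
    fun m : ℕ => ρ * (3 * m + 1) / p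

lemma icc_iff {ρ w v p : ℝ} {m : ℕ} (hρ : 0 < ρ) (hp : 0 < p) (hwv : w ≤ v) (h1 : ρ ≤ w * p) :
    m ∈ Finset.Icc ⌈(w * p / ρ - 1) / 3⌉₊ ⌊(v * p / ρ - 1) / 3⌋₊ ↔
      w ≤ ρ * (3 * m + 1) / p ∧ ρ * (3 * m + 1) / p ≤ v := by
  have h2 : 1 ≤ v * p / ρ := by
    rw [le_div_iff₀ hρ, one_mul]
    exact h1.trans (by gcongr)
  rw [Finset.mem_Icc, Nat.ceil_le, Nat.le_floor_iff (by linarith), le_div_iff₀ hp, div_le_iff₀ hp,
    div_le_iff₀ (by norm_num), le_div_iff₀ (by norm_num), sub_le_iff_le_add, le_sub_iff_add_le,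
    div_le_iff₀ hρ, le_div_iff₀ hρ]
  constructor
  · rintro ⟨h3, h4⟩; constructor <;> linarith
  · rintro ⟨h3, h4⟩; constructor <;> linarith

lemma mem_G {ρ : ℝ} {Y : ℕ} {w v r : ℝ} (hρ : 0 < ρ) (hwv : w ≤ v)
    (hbig : ∀ p ∈ primes Y, ρ ≤ w * p) :
    r ∈ G ρ Y w v ↔ ∃ p m : ℕ, p ∈ primes Y ∧ r = ρ * (3 * m + 1) / p ∧ w ≤ r ∧ r ≤ v := by
  unfold G
  simp only [Finset.mem_biUnion, Finset.mem_image]
  constructor
  · rintro ⟨p, hp, m, h3, rfl⟩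
    have hp0 : (0 : ℝ) < p := by exact_mod_cast (mem_primes.1 hp).1.pos
    rw [icc_iff hρ hp0 hwv (hbig p hp)] at h3
    exact ⟨p, m, hp, rfl, h3⟩
  · rintro ⟨p, m, hp, rfl, h3⟩
    have hp0 : (0 : ℝ) < p := by exact_mod_cast (mem_primes.1 hp).1.pos
    exact ⟨p, hp, m, (icc_iff hρ hp0 hwv (hbig p hp)).2 h3, rfl⟩

lemma G_lt {ρ v : ℝ} {p m : ℕ} (hρ : 1 ≤ ρ) (hv : v < 1) (hp : 0 < (p : ℝ))
    (h : ρ * (3 * m + 1) / p ≤ v) : 3 * m + 1 < p := by
  rw [div_le_iff₀ hp] at h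
  have h1 : ((3 * m + 1 : ℕ) : ℝ) < p := by
    push_cast
    nlinarith
  exact_mod_cast h1

lemma G_sep {ρ : ℝ} {Y : ℕ} {w v : ℝ} (hρ : 0 < ρ) (hwv : w ≤ v)
    (hbig : ∀ p ∈ primes Y, ρ ≤ w * p) :
    ∀ x ∈ G ρ Y w v, ∀ y ∈ G ρ Y w v, x < y → x + ρ / (Y : ℝ) ^ 2 ≤ y := by
  intro x hx y hy hxy
  rw [mem_G hρ hwv hbig] at hx hy
  obtain ⟨p, m, hp, rfl, -, -⟩ := hx
  obtain ⟨p', m', hp', rfl, -, -⟩ := hy
  have hp0 : (0 : ℝ) < p := by exact_mod_cast (mem_primes.1 hp).1.pos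
  have hp0' : (0 : ℝ) < p' := by exact_mod_cast (mem_primes.1 hp').1.pos
  have hpN : (p : ℝ) ≤ Y := by exact_mod_cast (mem_primes.1 hp).2.2
  have hpN' : (p' : ℝ) ≤ Y := by exact_mod_cast (mem_primes.1 hp').2.2
  rw [div_lt_div_iff₀ hp0 hp0'] at hxy
  have h3 : (3 * (m : ℝ) + 1) * p' < (3 * m' + 1) * p := by
    have h4 : ρ * ((3 * m + 1) * p') < ρ * ((3 * m' + 1) * p) := by linarith
    exact lt_of_mul_lt_mul_left h4 hρ.le
  have h4 : (3 * m + 1) * p' + 1 ≤ (3 * m' + 1) * p := by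
    have : (3 * m + 1) * p' < (3 * m' + 1) * p := by exact_mod_cast h3
    omega
  have h5 : (3 * (m : ℝ) + 1) * p' + 1 ≤ (3 * m' + 1) * p := by exact_mod_cast h4
  have h6 : ρ / (Y : ℝ) ^ 2 ≤ ρ / (p * p') := by
    apply div_le_div_of_nonneg_left hρ.le (by positivity)
    nlinarith
  have h7 : ρ * (3 * (m : ℝ) + 1) / p + ρ / (p * p') ≤ ρ * (3 * (m' : ℝ) + 1) / p' := by
    rw [div_add_div _ _ hp0.ne' (by positivity), div_le_div_iff₀ (by positivity) hp0']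
    have e : (ρ * (3 * (m : ℝ) + 1) * (p * p') + p * ρ) * p' =
        (ρ * (p * p')) * ((3 * m + 1) * p' + 1) := by ring
    have e' : ρ * (3 * (m' : ℝ) + 1) * (p * (p * p')) =
        (ρ * (p * p')) * ((3 * m' + 1) * p) := by ring
    rw [e, e']
    exact mul_le_mul_of_nonneg_left h5 (by positivity)
  linarith

lemma le_card_G {ρ : ℝ} {Y : ℕ} {w v : ℝ} (hρ : 1 ≤ ρ) (hv : v < 1) (hwv : w ≤ v)
    (hbig : ∀ p ∈ primes Y, ρ ≤ w * p) :
    ((primes Y).card : ℝ) * ((v - w) * Y / (12 * ρ) - 1) ≤ ((G ρ Y w v).card : ℝ) := by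
  classical
  have hρ0 : 0 < ρ := by linarith
  unfold G
  rw [Finset.card_biUnion]
  · push_cast
    have h3 : ∀ p ∈ primes Y, (v - w) * Y / (12 * ρ) - 1 ≤
        ((((Finset.Icc ⌈(w * p / ρ - 1) / 3⌉₊ ⌊(v * p / ρ - 1) / 3⌋₊).image
          fun m : ℕ => ρ * (3 * m + 1) / p).card : ℕ) : ℝ) := by
      intro p hp
      have hp0 : (0 : ℝ) < p := by exact_mod_cast (mem_primes.1 hp).1.pos
      have hpN : (Y : ℝ) < 4 * p := by exact_mod_cast (mem_primes.1 hp).2.1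
      have h1 : 1 ≤ w * p / ρ := by
        rw [le_div_iff₀ hρ0, one_mul]
        exact hbig p hp
      rw [Finset.card_image_of_injOn]
      · refine le_trans ?_ (le_card_Icc (by linarith))
        have h4 : (v - w) * Y / (12 * ρ) ≤ (v * p / ρ - 1) / 3 - (w * p / ρ - 1) / 3 := by
          have e : (v * p / ρ - 1) / 3 - (w * p / ρ - 1) / 3 = (v - w) * p / (3 * ρ) := by
            field_simp
            ring
          rw [e, div_le_div_iff₀ (by positivity) (by positivity)]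
          have h5 : (v - w) * Y ≤ (v - w) * (4 * p) :=
            mul_le_mul_of_nonneg_left hpN.le (by linarith)
          nlinarith
        linarith
      · intro m _ m' _ h
        simp only at h
        rw [div_left_inj' hp0.ne'] at h
        have := mul_left_cancel₀ hρ0.ne' h
        have h8 : (m : ℝ) = m' := by linarith
        exact_mod_cast h8
    calc ((primes Y).card : ℝ) * ((v - w) * Y / (12 * ρ) - 1)
        = ∑ _p ∈ primes Y, ((v - w) * Y / (12 * ρ) - 1) := by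
          rw [Finset.sum_const, nsmul_eq_mul]
      _ ≤ _ := Finset.sum_le_sum h3
  · intro p hp p' hp' hne
    simp only [Function.onFun]
    rw [Finset.disjoint_left]
    intro x hx hx'
    rw [Finset.mem_image] at hx hx'
    obtain ⟨m, hm, rfl⟩ := hx
    obtain ⟨m', hm', h⟩ := hx'
    have hp1 := mem_primes.1 hp
    have hp1' := mem_primes.1 hp'
    have hp0 : (0 : ℝ) < p := by exact_mod_cast hp1.1.pos
    have hp0' : (0 : ℝ) < p' := by exact_mod_cast hp1'.1.pos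
    rw [icc_iff hρ0 hp0 hwv (hbig p hp)] at hm
    rw [icc_iff hρ0 hp0' hwv (hbig p' hp')] at hm'
    rw [div_eq_div_iff hp0'.ne' hp0.ne'] at h
    have h5 : (3 * (m' : ℝ) + 1) * p = (3 * m + 1) * p' := by
      have : ρ * ((3 * (m' : ℝ) + 1) * p) = ρ * ((3 * m + 1) * p') := by linarith
      exact mul_left_cancel₀ hρ0.ne' this
    have h6 : (3 * m + 1) * p' = (3 * m' + 1) * p := by exact_mod_cast h5.symm
    exact hne (frac_inj (i := 0) hp1.1 hp1'.1 (by omega)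
      (by have := G_lt hρ hv hp0 hm.2; omega) (by have := G_lt hρ hv hp0' hm'.2; omega) h6).1

lemma card_filter_G {ρ : ℝ} {Y : ℕ} {w v x y : ℝ} (hρ : 0 < ρ)
    (hbig : ∀ p ∈ primes Y, ρ ≤ w * p) (hx : w ≤ x) (hxy : x ≤ y) :
    (((G ρ Y w v).filter fun r => x ≤ r ∧ r ≤ y).card : ℝ) ≤
      ((primes Y).card : ℝ) * ((y - x) * Y / ρ + 1) := by
  classical
  unfold G
  rw [Finset.filter_biUnion]
  have h1 := (Finset.card_biUnion_le (s := primes Y) (t := fun p =>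
    ((Finset.Icc ⌈(w * p / ρ - 1) / 3⌉₊ ⌊(v * p / ρ - 1) / 3⌋₊).image
      fun m : ℕ => ρ * (3 * m + 1) / p).filter fun r => x ≤ r ∧ r ≤ y))
  have h3 : ∀ p ∈ primes Y, ((((Finset.Icc ⌈(w * p / ρ - 1) / 3⌉₊ ⌊(v * p / ρ - 1) / 3⌋₊).image
      fun m : ℕ => ρ * (3 * m + 1) / p).filter fun r => x ≤ r ∧ r ≤ y).card : ℝ) ≤
      (y - x) * Y / ρ + 1 := by
    intro p hp
    have hp0 : (0 : ℝ) < p := by exact_mod_cast (mem_primes.1 hp).1.pos
    have hpN : (p : ℝ) ≤ Y := by exact_mod_cast (mem_primes.1 hp).2.2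
    have hxp : ρ ≤ x * p := (hbig p hp).trans (by gcongr)
    have h4 : (((Finset.Icc ⌈(w * p / ρ - 1) / 3⌉₊ ⌊(v * p / ρ - 1) / 3⌋₊).image
      fun m : ℕ => ρ * (3 * m + 1) / p).filter fun r => x ≤ r ∧ r ≤ y) ⊆
        (Finset.Icc ⌈(x * p / ρ - 1) / 3⌉₊ ⌊(y * p / ρ - 1) / 3⌋₊).image
      fun m : ℕ => ρ * (3 * m + 1) / p := by
      intro r hr
      rw [Finset.mem_filter, Finset.mem_image] at hr
      obtain ⟨⟨m, hm, rfl⟩, h7⟩ := hr
      rw [Finset.mem_image]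
      exact ⟨m, (icc_iff hρ hp0 hxy hxp).2 h7, rfl⟩
    have h5 := (Finset.card_le_card h4).trans Finset.card_image_le
    have h1 : 1 ≤ x * p / ρ := by
      rw [le_div_iff₀ hρ, one_mul]
      exact hxp
    have h6 : ((Finset.Icc ⌈(x * p / ρ - 1) / 3⌉₊ ⌊(y * p / ρ - 1) / 3⌋₊).card : ℝ) ≤
        (y * p / ρ - 1) / 3 - (x * p / ρ - 1) / 3 + 1 := by
      apply card_Icc_le (by linarith)
      gcongr
    have h7 : (y * p / ρ - 1) / 3 - (x * p / ρ - 1) / 3 ≤ (y - x) * Y / ρ := by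
      have e : (y * p / ρ - 1) / 3 - (x * p / ρ - 1) / 3 = (y - x) * p / ρ / 3 := by
        field_simp
        ring
      rw [e]
      have h8 : (y - x) * p / ρ ≤ (y - x) * Y / ρ := by
        have : 0 ≤ y - x := by linarith
        gcongr
      have h9 : 0 ≤ (y - x) * p / ρ := by
        have : 0 ≤ y - x := by linarith
        positivity
      linarith
    calc _ ≤ ((Finset.Icc ⌈(x * p / ρ - 1) / 3⌉₊ ⌊(y * p / ρ - 1) / 3⌋₊).card : ℝ) := by
          exact_mod_cast h5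
      _ ≤ _ := by linarith
  calc _ ≤ ((∑ p ∈ primes Y, (((Finset.Icc ⌈(w * p / ρ - 1) / 3⌉₊ ⌊(v * p / ρ - 1) / 3⌋₊).image
      fun m : ℕ => ρ * (3 * m + 1) / p).filter fun r => x ≤ r ∧ r ≤ y).card : ℕ) : ℝ) := by
        exact_mod_cast h1
    _ ≤ ∑ _p ∈ primes Y, ((y - x) * Y / ρ + 1) := by
        push_cast
        exact Finset.sum_le_sum h3
    _ = _ := by rw [Finset.sum_const, nsmul_eq_mul]

end Pool.Agent.Q273.CJ
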