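import Mathlib
import Pool.Agent.Q273.CG.Tree

/-!
# Positivity of the Hausdorff measure of Cantor sets
-/

set_option autoImplicit false

namespace Pool.Agent.Q273.CJ

open Set Filter Topology MeasureTheory
open scoped ENNReal NNReal

/-- mass distribution principle, for the measure -/
theorem hm_of_mass {Ω : Type} [MeasurableSpace Ω] (P : Measure Ω) [IsProbabilityMeasure P]
    {π : Ω → ℝ} (hπm : Measurable π) {s : ℝ≥0} (hs : 0 < s) {C : ℝ} (hC : 0 < C)
    (key : ∀ U : Set ℝ, P (π ⁻¹' U) ≤ ENNReal.ofReal C * Metric.ediam U ^ (s : ℝ)) (S : Set ℝ)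
    (hS : ∀ ω, π ω ∈ S) : μH[(s : ℝ)] S ≠ 0 := by
  have hs' : (0 : ℝ) < s := by exact_mod_cast hs
  set κ : ℝ≥0∞ := ENNReal.ofReal C⁻¹ with hκ
  have hκ0 : κ ≠ 0 := (ENNReal.ofReal_pos.2 (inv_pos.2 hC)).ne'
  have h1 : κ • P.map π ≤ μH[(s : ℝ)] := by
    apply Measure.le_hausdorffMeasure _ _ 1 one_pos
    intro U _
    have h2 : P.map π U ≤ P.map π (closure U) := measure_mono subset_closure
    rw [Measure.map_apply hπm isClosed_closure.measurableSet] at h2
    have h3 := key (closure U)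
    rw [Metric.ediam_closure] at h3
    rw [Measure.smul_apply, smul_eq_mul]
    calc κ * P.map π U ≤ κ * (ENNReal.ofReal C * Metric.ediam U ^ (s : ℝ)) :=
          mul_le_mul_right (h2.trans h3) _
      _ = Metric.ediam U ^ (s : ℝ) := by
          rw [← mul_assoc, hκ, ← ENNReal.ofReal_mul (inv_nonneg.2 hC.le), inv_mul_cancel₀ hC.ne',
            ENNReal.ofReal_one, one_mul]
  intro h0
  have h2 : κ ≤ μH[(s : ℝ)] S := by
    refine le_trans ?_ (h1 S)
    rw [Measure.smul_apply, smul_eq_mul]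
    have h3 : (1 : ℝ≥0∞) ≤ P.map π S := by
      refine le_trans ?_ (Measure.le_map_apply hπm.aemeasurable S)
      have : π ⁻¹' S = univ := eq_univ_of_forall fun ω => hS ω
      rw [this, measure_univ]
    calc κ = κ * 1 := (mul_one _).symm
      _ ≤ _ := mul_le_mul_right h3 _
  have h3 : μH[(s : ℝ)] S = 0 := h0
  rw [h3] at h2
  exact hκ0 (le_antisymm h2 zero_le)

/-- positivity of the Hausdorff measure, with level dependent finite alphabets -/
theorem hm_of_levels (T : ℕ → ℕ) (p : ∀ n, Fin (T n) → ℝ) (hp0 : ∀ n v, 0 ≤ p n v)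
    (hp1 : ∀ n, ∑ v, p n v = 1) {π : (∀ n, Fin (T n)) → ℝ} (hπm : Measurable π) {s : ℝ≥0}
    (hs : 0 < s) {C : ℝ} (hC : 0 < C)
    (h0 : ∀ ω : ∀ n, Fin (T n), Tendsto (fun n => ∏ i ∈ Finset.range n, p i (ω i)) atTop (𝓝 0))
    (h : ∀ (n : ℕ) (ω ω' : ∀ n, Fin (T n)), (∀ i < n, ω i = ω' i) → ω n < ω' n →
      (∏ i ∈ Finset.range n, p i (ω i)) * (∑ v ∈ Finset.Icc (ω n) (ω' n), p n v) ≤
        C * |π ω - π ω'| ^ (s : ℝ))
    (S : Set ℝ) (hS : ∀ ω, π ω ∈ S) : μH[(s : ℝ)] S ≠ 0 := by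
  classical
  have hs' : (0 : ℝ) < s := by exact_mod_cast hs
  set μ0 : ∀ n, Measure (Fin (T n)) := fun n => ∑ v, ENNReal.ofReal (p n v) • Measure.dirac v
    with hμ0
  have hμ0s : ∀ n v, μ0 n {v} = ENNReal.ofReal (p n v) := by
    intro n v
    rw [hμ0, Measure.finsetSum_apply]
    rw [Finset.sum_eq_single v]
    · simp
    · intro w _ hw
      simp [hw]
    · simp
  have hμ0f : ∀ n (A : Finset (Fin (T n))), μ0 n A = ENNReal.ofReal (∑ v ∈ A, p n v) := by
    intro n A
    rw [← sum_measure_singleton, ENNReal.ofReal_sum_of_nonneg fun v _ => hp0 n v]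
    exact Finset.sum_congr rfl fun v _ => hμ0s n v
  have hprob : ∀ n, IsProbabilityMeasure (μ0 n) := by
    intro n
    refine ⟨?_⟩
    rw [← Finset.coe_univ, hμ0f, hp1, ENNReal.ofReal_one]
  set P : Measure (∀ n, Fin (T n)) := Measure.infinitePi μ0 with hP
  have hcyl : ∀ (ω0 : ∀ n, Fin (T n)) (n : ℕ), P {ω | ∀ i < n, ω i = ω0 i} =
      ENNReal.ofReal (∏ i ∈ Finset.range n, p i (ω0 i)) := by
    intro ω0 n
    have h1 : {ω : ∀ n, Fin (T n) | ∀ i < n, ω i = ω0 i} = Set.pi (Finset.range n : Set ℕ)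
        fun i => {ω0 i} := by
      ext ω
      simp [Set.mem_pi]
    rw [h1, hP, Measure.infinitePi_pi _ (fun i _ => measurableSet_singleton _)]
    rw [ENNReal.ofReal_prod_of_nonneg fun i _ => hp0 _ _]
    exact Finset.prod_congr rfl fun i _ => hμ0s _ _
  have hcyl2 : ∀ (ω1 ω2 : ∀ n, Fin (T n)) (n : ℕ),
      P {ω | (∀ i < n, ω i = ω1 i) ∧ ω1 n ≤ ω n ∧ ω n ≤ ω2 n} =
      ENNReal.ofReal ((∏ i ∈ Finset.range n, p i (ω1 i)) *
        ∑ v ∈ Finset.Icc (ω1 n) (ω2 n), p n v) := by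
    intro ω1 ω2 n
    have h1 : {ω : ∀ n, Fin (T n) | (∀ i < n, ω i = ω1 i) ∧ ω1 n ≤ ω n ∧ ω n ≤ ω2 n} =
        Set.pi (Finset.range (n + 1) : Set ℕ)
        fun i => if i < n then ({ω1 i} : Set (Fin (T i))) else
          (Finset.Icc (ω1 i) (ω2 i) : Finset (Fin (T i))) := by
      ext ω
      simp only [Set.mem_ofPred_eq, Set.mem_pi, Finset.coe_range, Set.mem_Iio]
      constructor
      · rintro ⟨h1, h2, h3⟩ i hi
        rcases Nat.lt_or_ge i n with h4 | h4
        · rw [if_pos h4]; exact h1 i h4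
        · have : i = n := by omega
          subst this
          rw [if_neg (by omega)]
          simp [h2, h3]
      · intro h1
        refine ⟨fun i hi => ?_, ?_⟩
        · have := h1 i (by omega)
          rw [if_pos hi] at this
          exact this
        · have := h1 n (by omega)
          rw [if_neg (by omega)] at this
          simpa using this
    rw [h1, hP, Measure.infinitePi_pi, Finset.prod_range_succ]
    · rw [ENNReal.ofReal_mul (Finset.prod_nonneg fun i _ => hp0 _ _),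
        ENNReal.ofReal_prod_of_nonneg fun i _ => hp0 _ _]
      congr 1
      · refine Finset.prod_congr rfl fun i hi => ?_
        rw [if_pos (Finset.mem_range.1 hi)]
        exact hμ0s _ _
      · rw [if_neg (lt_irrefl n)]
        exact hμ0f _ _
    · intro i _
      split_ifs
      · exact measurableSet_singleton _
      · exact (Finset.measurableSet _)
  -- the main estimate
  have key : ∀ U : Set ℝ, P (π ⁻¹' U) ≤ ENNReal.ofReal C * Metric.ediam U ^ (s : ℝ) := by
    intro U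
    by_cases hE : ∃ n, ∃ ω ∈ π ⁻¹' U, ∃ ω' ∈ π ⁻¹' U, ω n ≠ ω' n
    · obtain ⟨ω, hω, ω', hω', hne⟩ := Nat.find_spec hE
      set n := Nat.find hE with hn
      have hmin : ∀ i < n, ∀ a ∈ π ⁻¹' U, ∀ b ∈ π ⁻¹' U, a i = b i := by
        intro i hi a ha b hb
        by_contra hab
        exact Nat.find_min hE hi ⟨a, ha, b, hb, hab⟩
      set R : Finset (Fin (T n)) := Finset.univ.filter fun v => ∃ a ∈ π ⁻¹' U, a n = v with hR
      have hRne : R.Nonempty := ⟨ω n, by simp only [hR, Finset.mem_filter, Finset.mem_univ, true_and];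
                                          exact ⟨ω, hω, rfl⟩⟩
      obtain ⟨a1, ha1, h1n⟩ : ∃ a ∈ π ⁻¹' U, a n = R.min' hRne := by
        have := R.min'_mem hRne
        simpa [hR] using this
      obtain ⟨a2, ha2, h2n⟩ : ∃ a ∈ π ⁻¹' U, a n = R.max' hRne := by
        have := R.max'_mem hRne
        simpa [hR] using this
      have hmem : ∀ a ∈ π ⁻¹' U, a n ∈ R := by
        intro a ha
        simp only [hR, Finset.mem_filter, Finset.mem_univ, true_and]
        exact ⟨a, ha, rfl⟩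
      have hlt : a1 n < a2 n := by
        rw [h1n, h2n]
        exact Finset.min'_lt_max' R (hmem ω hω) (hmem ω' hω') hne
      have h1 : π ⁻¹' U ⊆ {a | (∀ i < n, a i = a1 i) ∧ a1 n ≤ a n ∧ a n ≤ a2 n} := by
        intro a ha
        refine ⟨fun i hi => hmin i hi a ha a1 ha1, ?_, ?_⟩
        · rw [h1n]; exact Finset.min'_le _ _ (hmem a ha)
        · rw [h2n]; exact Finset.le_max' _ _ (hmem a ha)
      have h2 := h n a1 a2 (fun i hi => hmin i hi a1 ha1 a2 ha2) hlt
      have h4 : ENNReal.ofReal |π a1 - π a2| ≤ Metric.ediam U := by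
        have h4 : edist (π a1) (π a2) ≤ Metric.ediam U := Metric.edist_le_ediam_of_mem ha1 ha2
        rwa [edist_dist, Real.dist_eq] at h4
      calc P (π ⁻¹' U) ≤ P {a | (∀ i < n, a i = a1 i) ∧ a1 n ≤ a n ∧ a n ≤ a2 n} := measure_mono h1
        _ = _ := hcyl2 a1 a2 n
        _ ≤ ENNReal.ofReal (C * |π a1 - π a2| ^ (s : ℝ)) := ENNReal.ofReal_le_ofReal h2
        _ = ENNReal.ofReal C * ENNReal.ofReal |π a1 - π a2| ^ (s : ℝ) := by
            rw [ENNReal.ofReal_mul hC.le, ENNReal.ofReal_rpow_of_nonneg (abs_nonneg _) hs'.le]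
        _ ≤ _ := mul_le_mul_right (ENNReal.rpow_le_rpow h4 hs'.le) _
    · push Not at hE
      rcases (π ⁻¹' U).eq_empty_or_nonempty with h0' | ⟨ω, hω⟩
      · rw [h0', measure_empty]; exact zero_le
      · have h1 : ∀ n, P (π ⁻¹' U) ≤ ENNReal.ofReal (∏ i ∈ Finset.range n, p i (ω i)) := by
          intro n
          have h2 : π ⁻¹' U ⊆ {a | ∀ i < n, a i = ω i} := fun a ha i _ => hE i a ha ω hω
          refine (measure_mono h2).trans ?_
          rw [hcyl]
        have h3 : Tendsto (fun n : ℕ => ENNReal.ofReal (∏ i ∈ Finset.range n, p i (ω i))) atTop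
            (𝓝 0) := by
          have := ENNReal.tendsto_ofReal (h0 ω)
          rwa [ENNReal.ofReal_zero] at this
        have h4 : P (π ⁻¹' U) ≤ 0 := ge_of_tendsto' h3 h1
        exact h4.trans zero_le
  exact hm_of_mass P hπm hs hC key S hS

end Pool.Agent.Q273.CJ
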