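import Mathlib
import Pool.Agent.Q273.AbcR
import Pool.Agent.Q273.Apx

/-!
# The quality of the triples of convergents
-/

set_option autoImplicit false

namespace Pool.Agent.Q273.CJ

open Set Filter Topology

open Q273.AbcR (R c abc F)

/-- the quality of the triple of `r` -/
noncomputable def quality (r : ℚ) : ℝ := Real.log (c r) / Real.log (R (abc r))

lemma c_pos (r : ℚ) : 1 ≤ c r :=
  (Nat.one_le_iff_ne_zero.2 r.den_pos.ne').trans ((le_max_right _ _).trans (le_max_left _ _))

lemma abc_ne {r : ℚ} (h0 : r ≠ 0) (h1 : r ≠ 1) : abc r ≠ 0 := by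
  have hnum : r.num ≠ 0 := Rat.num_ne_zero.2 h0
  have hden : 0 < r.den := r.den_pos
  have hne : r.num ≠ (r.den : ℤ) := by
    intro h
    apply h1
    have h3 := Rat.num_div_den r
    rw [h] at h3
    rw [← h3]
    have : (r.den : ℚ) ≠ 0 := by exact_mod_cast hden.ne'
    push_cast
    exact div_self this
  unfold abc
  have h3 : r.num.natAbs ≠ 0 := by omega
  have h4 : (r.num - r.den).natAbs ≠ 0 := by omega
  positivity

lemma two_le_R {r : ℚ} (h0 : r ≠ 0) (h1 : r ≠ 1) : 2 ≤ R (abc r) := by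
  have h2 : abc r ≠ 0 := abc_ne h0 h1
  have h3 : 2 ∣ abc r := by
    unfold abc
    rcases Int.emod_two_eq_zero_or_one r.num with h | h
    · have : 2 ∣ r.num.natAbs := by omega
      exact (this.mul_right _).mul_right _
    · rcases Nat.mod_two_eq_zero_or_one r.den with h' | h'
      · have : 2 ∣ r.den := by omega
        exact (this.mul_left _).mul_right _
      · have : 2 ∣ (r.num - r.den).natAbs := by omega
        exact this.mul_left _
  have h4 : 2 ∈ (abc r).primeFactors := Nat.mem_primeFactors.2 ⟨Nat.prime_two, h3, h2⟩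
  unfold R
  exact Nat.le_of_dvd (Finset.prod_pos fun p hp => (Nat.prime_of_mem_primeFactors hp).pos)
    (Finset.dvd_prod_of_mem _ h4)

lemma R_le {m : ℕ} (hm : m ≠ 0) : R m ≤ m :=
  Nat.le_of_dvd (Nat.pos_of_ne_zero hm) (Nat.prod_primeFactors_dvd m)

lemma R_pos (m : ℕ) : 1 ≤ R m :=
  Finset.prod_pos fun p hp => (Nat.prime_of_mem_primeFactors hp).pos

lemma R_mul_le {a b : ℕ} (ha : a ≠ 0) (hb : b ≠ 0) : R (a * b) ≤ R a * R b := by
  unfold R
  rw [Nat.primeFactors_mul ha hb, ← Finset.prod_union_inter]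
  refine Nat.le_mul_of_pos_right _ (Finset.prod_pos fun p hp => ?_)
  exact (Nat.prime_of_mem_primeFactors (Finset.mem_inter.1 hp).1).pos

lemma R_pow_le {q : ℕ} (hq : q.Prime) (i : ℕ) : R (q ^ i) ≤ q := by
  unfold R
  rcases Nat.eq_zero_or_pos i with h | h
  · rw [h, pow_zero]
    simpa using hq.one_le
  · rw [Nat.primeFactors_prime_pow h.ne' hq]
    simp

/-- the quality is at least `1 / 3` -/
lemma third_le_quality {r : ℚ} (h0 : r ≠ 0) (h1 : r ≠ 1) : 1 / 3 ≤ quality r := by
  have h2 := two_le_R h0 h1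
  have hR : 0 < Real.log (R (abc r)) := Real.log_pos (by exact_mod_cast h2)
  unfold quality
  rw [le_div_iff₀ hR]
  have h3 : R (abc r) ≤ c r ^ 3 := by
    refine (R_le (abc_ne h0 h1)).trans ?_
    unfold abc
    have e : c r ^ 3 = c r * c r * c r := by ring
    rw [e]
    gcongr
    · exact (le_max_left _ _).trans (le_max_left _ _)
    · exact (le_max_right _ _).trans (le_max_left _ _)
    · exact le_max_right _ _
  have h4 : Real.log (R (abc r)) ≤ Real.log ((c r : ℝ) ^ 3) :=
    Real.log_le_log (by exact_mod_cast R_pos _) (by exact_mod_cast h3)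
  rw [Real.log_pow] at h4
  push_cast at h4
  linarith

/-- a triple of quality larger than `M` -/
lemma of_quality {r : ℚ} {M : ℝ} (hM : 0 < M) (h0 : r ≠ 0) (h1 : r ≠ 1) (h : M < quality r) :
    (R (abc r) : ℝ) ≤ 1 * (c r : ℝ) ^ (1 / M) := by
  have h2 := two_le_R h0 h1
  have hR : 0 < Real.log (R (abc r)) := Real.log_pos (by exact_mod_cast h2)
  unfold quality at h
  rw [lt_div_iff₀ hR] at h
  have hc : (0 : ℝ) < c r := by exact_mod_cast c_pos r
  rw [one_mul]
  have h3 : Real.log (R (abc r)) ≤ Real.log ((c r : ℝ) ^ (1 / M)) := by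
    rw [Real.log_rpow hc, div_mul_eq_mul_div, one_mul, le_div_iff₀ hM]
    linarith
  exact (Real.log_le_log_iff (by exact_mod_cast R_pos _) (by positivity)).1 h3

open GenContFract in
/-- the continuants are integers -/
lemma contsAux_int (v : ℝ) (n : ℕ) : ∃ a b : ℤ, ((GenContFract.of v).contsAux n).a = a ∧
    ((GenContFract.of v).contsAux n).b = b := by
  induction n using Nat.strong_induction_on with
  | _ n ih =>
    match n, ih with
    | 0, _ => exact ⟨1, 0, by simp [contsAux], by simp [contsAux]⟩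
    | 1, _ => exact ⟨⌊v⌋, 1, by simp [contsAux, of_h_eq_floor], by simp [contsAux]⟩
    | n + 2, ih =>
      obtain ⟨a0, b0, h0, h0'⟩ := ih n (by omega)
      obtain ⟨a1, b1, h1, h1'⟩ := ih (n + 1) (by omega)
      rcases hs : (GenContFract.of v).s.get? n with _ | gp
      · refine ⟨a1, b1, ?_, ?_⟩ <;> simp [contsAux, hs, h1, h1']
      · obtain ⟨e1, z, e2⟩ := of_partNum_eq_one_and_exists_int_partDen_eq hs
        refine ⟨z * a1 + a0, z * b1 + b0, ?_, ?_⟩
        · simp [contsAux, hs, nextConts, nextNum, e1, e2, h0, h1]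
        · simp [contsAux, hs, nextConts, nextDen, e1, e2, h0', h1']

/-- a convergent is close -/
lemma convergent_close (v : ℝ) (hv : Irrational v) (n : ℕ) :
    |v - (v.convergent n : ℝ)| ≤ 1 / ((v.convergent n).den : ℝ) ^ 2 := by
  have hterm : ∀ n, ¬ (GenContFract.of v).TerminatedAt n := by
    intro n h
    obtain ⟨q, hq⟩ := (GenContFract.terminates_iff_rat v).mp ⟨n, h⟩
    exact hv ⟨q, hq.symm⟩
  obtain ⟨a, b, ha, hb⟩ := contsAux_int v (n + 1)
  have h1 := GenContFract.abs_sub_convs_le (hterm n)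
  have hden : (GenContFract.of v).dens n = b := hb
  have hnum : (GenContFract.of v).nums n = a := ha
  have hpos : (0 : ℝ) < b := by
    rw [← hden]
    have h2 := GenContFract.succ_nth_fib_le_of_nth_den (v := v) (n := n) (Or.inr (hterm _))
    refine lt_of_lt_of_le ?_ h2
    exact_mod_cast Nat.fib_pos.mpr n.succ_pos
  have hmono : (b : ℝ) ≤ (GenContFract.of v).dens (n + 1) := by
    rw [← hden]; exact GenContFract.of_den_mono
  rw [hden] at h1
  have hc : (GenContFract.of v).convs n = (a : ℝ) / b := by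
    have : (GenContFract.of v).convs n = (GenContFract.of v).nums n / (GenContFract.of v).dens n :=
      rfl
    rw [this, hden, hnum]
  have hr : v.convergent n = (a : ℚ) / b := by
    have h3 := Real.convs_eq_convergent v n
    rw [hc] at h3
    have h4 : (((a : ℚ) / b : ℚ) : ℝ) = ((v.convergent n : ℚ) : ℝ) := by
      push_cast
      exact h3
    exact_mod_cast h4.symm
  have hbZ : 0 < b := by exact_mod_cast hpos
  have hle : ((v.convergent n).den : ℝ) ≤ b := by
    rw [hr]
    have h5 := Int.le_of_dvd hbZ (Rat.den_dvd a b)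
    exact_mod_cast h5
  have hd0 : (0 : ℝ) < (v.convergent n).den := by exact_mod_cast (v.convergent n).den_pos
  rw [Real.convs_eq_convergent] at h1
  refine h1.trans ?_
  apply one_div_le_one_div_of_le (by positivity)
  calc ((v.convergent n).den : ℝ) ^ 2 ≤ (b : ℝ) ^ 2 := pow_le_pow_left₀ hd0.le hle 2
    _ = b * b := sq _
    _ ≤ b * (GenContFract.of v).dens (n + 1) := mul_le_mul_of_nonneg_left hmono hpos.le

/-- the convergents converge -/
lemma convergent_tendsto (v : ℝ) :
    Tendsto (fun n => (v.convergent n : ℝ)) atTop (𝓝 v) := by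
  have h := GenContFract.of_convergence v
  refine h.congr fun n => ?_
  exact Real.convs_eq_convergent v n

/-- the convergents of an irrational number leave every finite set -/
lemma convergent_avoid {v : ℝ} (hv : Irrational v) {V : Set ℚ} (hV : V.Finite) :
    ∀ᶠ n in atTop, v.convergent n ∉ V := by
  have hcl : IsClosed ((fun r : ℚ => (r : ℝ)) '' V) := (hV.image _).isClosed
  have hmem : v ∈ ((fun r : ℚ => (r : ℝ)) '' V)ᶜ := by
    rintro ⟨r, -, hr⟩
    exact hv ⟨r, hr⟩
  have h1 := (convergent_tendsto v).eventually (hcl.isOpen_compl.mem_nhds hmem)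
  filter_upwards [h1] with n hn hn'
  exact hn ⟨_, hn', rfl⟩

/-- **upper bound for the exceptional sets** -/
theorem exc_quality {M : ℝ} (hM : 0 < M) : ∃ E : Set ℝ, dimH E ≤ ENNReal.ofReal (F (1 / M) / 2) ∧
    ∀ ξ : ℝ, Irrational ξ → ξ ∉ E → ∀ᶠ n in atTop, quality (ξ.convergent n) ≤ M := by
  obtain ⟨E, hE1, hE2⟩ := Q273.Apx.approx {r : ℚ | r ≠ 0 ∧ r ≠ 1 ∧
      (R (abc r) : ℝ) ≤ 1 * (c r : ℝ) ^ (1 / M)}
    (fun r => (c r : ℝ)) (fun r : ℚ => (r : ℝ))
    (s := F (1 / M)) (τ := 2)
    (Q273.AbcR.F_nonneg (by positivity)) (by norm_num)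
    (fun ε hε => Q273.AbcR.count (by positivity) 1 ε hε)
  refine ⟨E, hE1, fun ξ hξ hξE => ?_⟩
  have hfin := hE2 ξ hξE ((|ξ| + 2) ^ 2)
  have h01 : ({0, 1} : Set ℚ).Finite := by simp
  filter_upwards [convergent_avoid hξ hfin, convergent_avoid hξ h01] with n h1 h2
  by_contra hcon
  push Not at hcon
  apply h1
  simp only [Set.mem_insert_iff, Set.mem_singleton_iff, not_or] at h2
  refine ⟨⟨h2.1, h2.2, of_quality hM h2.1 h2.2 hcon⟩, ?_⟩
  set r := ξ.convergent n with hr
  have hclose := convergent_close ξ hξ n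
  rw [← hr] at hclose
  have hd0 : (1 : ℝ) ≤ r.den := by exact_mod_cast r.den_pos
  rw [Real.dist_eq]
  have hcd : (c r : ℝ) ≤ (|ξ| + 2) * r.den := by
    have h3 : (r : ℝ) = (r.num : ℝ) / r.den := by exact_mod_cast (Rat.num_div_den r).symm
    have h4 : (r.num : ℝ) = r * r.den := by rw [h3]; field_simp
    have h5 : |(r : ℝ)| ≤ |ξ| + 1 := by
      have h6 : |ξ - (r : ℝ)| ≤ 1 := hclose.trans (by
        rw [div_le_one (by positivity)]
        exact one_le_pow₀ hd0)
      have h7 : |(r : ℝ)| ≤ |ξ| + |ξ - r| := by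
        calc |(r : ℝ)| = |ξ - (ξ - r)| := by ring_nf
          _ ≤ |ξ| + |ξ - r| := abs_sub _ _
      linarith
    have h6 : |(r.num : ℝ)| ≤ (|ξ| + 1) * r.den := by
      rw [h4, abs_mul, abs_of_nonneg (by linarith : (0 : ℝ) ≤ r.den)]
      gcongr
    unfold c
    push_cast
    rw [Nat.cast_natAbs, Nat.cast_natAbs]
    push_cast
    have hx : 0 ≤ |ξ| := abs_nonneg _
    refine max_le (max_le ?_ ?_) ?_
    · nlinarith
    · nlinarith
    · calc |(r.num : ℝ) - r.den| ≤ |(r.num : ℝ)| + |(r.den : ℝ)| := abs_sub _ _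
        _ = |(r.num : ℝ)| + r.den := by rw [abs_of_nonneg (by linarith : (0 : ℝ) ≤ r.den)]
        _ ≤ _ := by nlinarith
  have hc1 : (1 : ℝ) ≤ c r := by exact_mod_cast c_pos r
  have e : (c r : ℝ) ^ (-(2 : ℝ)) = 1 / (c r : ℝ) ^ 2 := by
    rw [Real.rpow_neg (by linarith), one_div]
    norm_num
  rw [e]
  refine hclose.trans ?_
  rw [mul_one_div, div_le_div_iff₀ (by positivity) (by positivity), one_mul]
  calc (c r : ℝ) ^ 2 ≤ ((|ξ| + 2) * r.den) ^ 2 := by gcongr
    _ = (|ξ| + 2) ^ 2 * (r.den : ℝ) ^ 2 := by ring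

/-- all qualities are at least `1 / 3` eventually -/
lemma eventually_third {ξ : ℝ} (hξ : Irrational ξ) :
    ∀ᶠ n in atTop, 1 / 3 ≤ quality (ξ.convergent n) := by
  have h01 : ({0, 1} : Set ℚ).Finite := by simp
  filter_upwards [convergent_avoid hξ h01] with n h2
  simp only [Set.mem_insert_iff, Set.mem_singleton_iff, not_or] at h2
  exact third_le_quality h2.1 h2.2

end Pool.Agent.Q273.CJ
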