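import Mathlib
import Pool.Agent.Q273.CJ.HM

/-!
# Positivity of the Hausdorff measure of Cantor sets given by a step lemma
-/

set_option autoImplicit false

namespace Pool.Agent.Q273.CJ

open Set Filter Topology MeasureTheory
open scoped ENNReal NNReal
open Pool.Agent.Q273.CG (measurable_of_dep)

/-- Every interval of length `ℓ n` in `[a, b]` contains `T n` subintervals of length `ℓ (n + 1)` of
`A n`, and the number of those in an interval is controlled by its length. -/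
theorem hm_children {a b C : ℝ} {s : ℝ≥0} (hs : 0 < s) (hC : 0 < C)
    (ℓ : ℕ → ℝ) (T : ℕ → ℕ)
    (A : ℕ → Set ℝ) (hℓ : ∀ n, 0 < ℓ n) (hℓ0 : Tendsto ℓ atTop (𝓝 0)) (hab : ℓ 0 ≤ b - a)
    (hTpos : ∀ n, 0 < T n)
    (hprod0 : Tendsto (fun n => ∏ i ∈ Finset.range n, (T i : ℝ)) atTop atTop)
    (hA : ∀ n w, a ≤ w → w + ℓ n ≤ b → ∃ φ : ℕ → ℝ,
      (∀ j, j < T n → w ≤ φ j ∧ φ j + ℓ (n + 1) ≤ w + ℓ n ∧ Icc (φ j) (φ j + ℓ (n + 1)) ⊆ A n) ∧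
      ∀ i j : ℕ, i < j → j < T n → φ i + ℓ (n + 1) ≤ φ j ∧
        (j : ℝ) - i + 1 ≤ C * ((∏ i ∈ Finset.range n, (T i : ℝ)) * T n) *
          (φ j - φ i - ℓ (n + 1)) ^ (s : ℝ)) :
    μH[(s : ℝ)] {α : ℝ | a ≤ α ∧ α ≤ b ∧ ∀ n, α ∈ A n} ≠ 0 := by
  classical
  have hs0 : (0 : ℝ) < s := by exact_mod_cast hs
  have hTr : ∀ n, (1 : ℝ) ≤ T n := fun n => by exact_mod_cast hTpos n
  -- the choice of the children
  have hA' : ∀ n w, ∃ φ : ℕ → ℝ, (a ≤ w → w + ℓ n ≤ b →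
      (∀ j, j < T n → w ≤ φ j ∧ φ j + ℓ (n + 1) ≤ w + ℓ n ∧ Icc (φ j) (φ j + ℓ (n + 1)) ⊆ A n) ∧
      ∀ i j : ℕ, i < j → j < T n → φ i + ℓ (n + 1) ≤ φ j ∧
        (j : ℝ) - i + 1 ≤ C * ((∏ i ∈ Finset.range n, (T i : ℝ)) * T n) *
          (φ j - φ i - ℓ (n + 1)) ^ (s : ℝ)) := by
    intro n w
    by_cases h : a ≤ w ∧ w + ℓ n ≤ b
    · obtain ⟨φ, hφ⟩ := hA n w h.1 h.2
      exact ⟨φ, fun _ _ => hφ⟩
    · exact ⟨0, fun h1 h2 => absurd ⟨h1, h2⟩ h⟩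
  choose φ hφ using hA'
  let Lf : ℕ → (∀ n, Fin (T n)) → ℝ := fun n => Nat.rec (fun _ => a)
    (fun n L ω => φ n (L ω) (ω n)) n
  have hL0 : ∀ ω, Lf 0 ω = a := fun ω => rfl
  have hLs : ∀ n ω, Lf (n + 1) ω = φ n (Lf n ω) (ω n) := fun n ω => rfl
  have hin : ∀ (n : ℕ) (ω : ∀ n, Fin (T n)), a ≤ Lf n ω ∧ Lf n ω + ℓ n ≤ b := by
    intro n ω
    induction n with
    | zero => rw [hL0]; exact ⟨le_refl _, by linarith⟩
    | succ n ih =>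
      rw [hLs]
      obtain ⟨h4, h5, -⟩ := (hφ n (Lf n ω) ih.1 ih.2).1 (ω n) (ω n).2
      exact ⟨by linarith [ih.1], by linarith [ih.2]⟩
  have hstep : ∀ (n : ℕ) (ω : ∀ n, Fin (T n)),
      Lf n ω ≤ Lf (n + 1) ω ∧ Lf (n + 1) ω + ℓ (n + 1) ≤ Lf n ω + ℓ n ∧
      Icc (Lf (n + 1) ω) (Lf (n + 1) ω + ℓ (n + 1)) ⊆ A n := by
    intro n ω
    rw [hLs]
    exact (hφ n (Lf n ω) (hin n ω).1 (hin n ω).2).1 (ω n) (ω n).2
  have hmono : ∀ ω, Monotone (fun n => Lf n ω) := fun ω =>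
    monotone_nat_of_le_succ fun n => (hstep n ω).1
  have hanti : ∀ ω, Antitone (fun n => Lf n ω + ℓ n) := fun ω =>
    antitone_nat_of_succ_le fun n => (hstep n ω).2.1
  -- the limit points
  have hbdd : ∀ ω, BddAbove (range fun n => Lf n ω) := by
    intro ω
    refine ⟨b, ?_⟩
    rintro _ ⟨n, rfl⟩
    have := (hin n ω).2
    have := hℓ n
    simp only
    linarith
  set π : (∀ n, Fin (T n)) → ℝ := fun ω => ⨆ n, Lf n ω with hπ
  have hlim : ∀ ω, Tendsto (fun n => Lf n ω) atTop (𝓝 (π ω)) := fun ω =>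
    tendsto_atTop_ciSup (hmono ω) (hbdd ω)
  have hπ1 : ∀ n ω, Lf n ω ≤ π ω := fun n ω => le_ciSup (hbdd ω) n
  have hπ2 : ∀ n ω, π ω ≤ Lf n ω + ℓ n := by
    intro n ω
    have h1 : Tendsto (fun n => Lf n ω + ℓ n) atTop (𝓝 (π ω + 0)) := (hlim ω).add hℓ0
    rw [add_zero] at h1
    exact (hanti ω).le_of_tendsto h1 n
  have hdep : ∀ (n : ℕ) (ω ω' : ∀ n, Fin (T n)), (∀ i < n, ω i = ω' i) → Lf n ω = Lf n ω' := by
    intro n ω ω' h
    induction n with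
    | zero => rw [hL0, hL0]
    | succ n ih =>
      rw [hLs, hLs, ih (fun i hi => h i (by omega)), h n (by omega)]
  have hπm : Measurable π :=
    measurable_of_tendsto_metrizable (f := fun n => Lf n) (fun n => measurable_of_dep hTpos n (hdep n))
      (tendsto_pi_nhds.2 hlim)
  -- product of the branching numbers
  have hprodpos : ∀ n, 0 < ∏ i ∈ Finset.range n, (T i : ℝ) := fun n =>
    Finset.prod_pos fun i _ => by linarith [hTr i]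
  have hpeq : ∀ n, ∏ i ∈ Finset.range n, (1 / (T i : ℝ)) = (∏ i ∈ Finset.range n, (T i : ℝ))⁻¹ := by
    intro n
    rw [← Finset.prod_inv_distrib]
    exact Finset.prod_congr rfl fun i _ => one_div _
  refine hm_of_levels T (fun n _ => 1 / (T n : ℝ)) (fun n v => by positivity)
    (fun n => ?_) (π := π) hπm hs (C := C) hC (fun ω => ?_)
    (fun n ω ω' h hlt => ?_) _ (fun ω => ?_)
  · have h2 : (T n : ℝ) ≠ 0 := by linarith [hTr n]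
    simp [h2]
  · -- the cylinders shrink
    have h1 : Tendsto (fun n => (∏ i ∈ Finset.range n, (T i : ℝ))⁻¹) atTop (𝓝 0) :=
      hprod0.inv_tendsto_atTop
    refine h1.congr fun n => ?_
    rw [hpeq]
  · -- the main inequality
    have hTn : (0 : ℝ) < T n := by linarith [hTr n]
    have hlt' : (ω n : ℕ) < (ω' n : ℕ) := hlt
    have hsum : ∑ v ∈ Finset.Icc (ω n) (ω' n), 1 / (T n : ℝ) =
        (((ω' n : ℕ) : ℝ) - ((ω n : ℕ) : ℝ) + 1) / T n := by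
      rw [Finset.sum_const, Fin.card_Icc, nsmul_eq_mul]
      have : (((ω' n : ℕ) + 1 - (ω n : ℕ) : ℕ) : ℝ) =
          ((ω' n : ℕ) : ℝ) - ((ω n : ℕ) : ℝ) + 1 := by
        rw [Nat.cast_sub (by omega)]
        push_cast
        ring
      rw [this]
      ring
    obtain ⟨h4, h5⟩ := (hφ n (Lf n ω) (hin n ω).1 (hin n ω).2).2 (ω n) (ω' n) hlt' (ω' n).2
    have e1 : Lf (n + 1) ω = φ n (Lf n ω) (ω n) := hLs n ω
    have e2 : Lf (n + 1) ω' = φ n (Lf n ω) (ω' n) := by rw [hLs, hdep n ω ω' h]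
    have hsep : φ n (Lf n ω) (ω' n) - φ n (Lf n ω) (ω n) - ℓ (n + 1) ≤ |π ω - π ω'| := by
      rw [abs_sub_comm]
      refine le_trans ?_ (le_abs_self _)
      have h1 := hπ2 (n + 1) ω
      have h3 := hπ1 (n + 1) ω'
      rw [← e1, ← e2]
      linarith
    have hnn : 0 ≤ φ n (Lf n ω) (ω' n) - φ n (Lf n ω) (ω n) - ℓ (n + 1) := by linarith
    have h6 : (φ n (Lf n ω) (ω' n) - φ n (Lf n ω) (ω n) - ℓ (n + 1)) ^ (s : ℝ) ≤
        |π ω - π ω'| ^ (s : ℝ) := Real.rpow_le_rpow hnn hsep hs0.le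
    have hP := hprodpos n
    rw [hsum, hpeq]
    have h7 : ((ω' n : ℕ) : ℝ) - ((ω n : ℕ) : ℝ) + 1 ≤
        C * ((∏ i ∈ Finset.range n, (T i : ℝ)) * T n) * |π ω - π ω'| ^ (s : ℝ) :=
      h5.trans (mul_le_mul_of_nonneg_left h6 (by positivity))
    calc (∏ i ∈ Finset.range n, (T i : ℝ))⁻¹ * ((((ω' n : ℕ) : ℝ) - ((ω n : ℕ) : ℝ) + 1) / T n)
        ≤ (∏ i ∈ Finset.range n, (T i : ℝ))⁻¹ *
          (C * ((∏ i ∈ Finset.range n, (T i : ℝ)) * T n) * |π ω - π ω'| ^ (s : ℝ) / T n) := by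
          gcongr
      _ = C * |π ω - π ω'| ^ (s : ℝ) := by
          have h8 := hP.ne'
          have h9 := hTn.ne'
          field_simp
  · refine ⟨(hin 0 ω).1.trans (hπ1 0 ω), (hπ2 0 ω).trans (hin 0 ω).2, fun n => ?_⟩
    exact (hstep n ω).2.2 ⟨hπ1 (n + 1) ω, hπ2 (n + 1) ω⟩

/-- Cantor sets given by a step lemma: every interval of length `ℓ` contains `T` intervals of length
`ℓ'` of `A n`, `T ℓ' ^ s ≥ ℓ ^ s`. -/
theorem hm_rec {a b C : ℝ} {s : ℝ≥0} (hs : 0 < s) (hC : 0 < C) (hab : a < b) (A : ℕ → Set ℝ)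
    (hstep : ∀ (n : ℕ) (ℓ : ℝ), 0 < ℓ → ℓ ≤ b - a → ∃ (ℓ' : ℝ) (T : ℕ), 0 < ℓ' ∧ ℓ' ≤ ℓ / 2 ∧
      2 ≤ T ∧ ℓ ^ (s : ℝ) ≤ T * ℓ' ^ (s : ℝ) ∧
      ∀ w, a ≤ w → w + ℓ ≤ b → ∃ φ : ℕ → ℝ,
        (∀ j, j < T → w ≤ φ j ∧ φ j + ℓ' ≤ w + ℓ ∧ Icc (φ j) (φ j + ℓ') ⊆ A n) ∧
        ∀ i j : ℕ, i < j → j < T → φ i + ℓ' ≤ φ j ∧
          (j : ℝ) - i + 1 ≤ C * (ℓ ^ (-(s : ℝ)) * T) * (φ j - φ i - ℓ') ^ (s : ℝ)) :
    μH[(s : ℝ)] {α : ℝ | a ≤ α ∧ α ≤ b ∧ ∀ n, α ∈ A n} ≠ 0 := by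
  have hs0 : (0 : ℝ) < s := by exact_mod_cast hs
  have hba : 0 < b - a := by linarith
  choose! L T h1 h2 h3 h4 h5 using hstep
  let ℓ : ℕ → ℝ := fun n => Nat.rec (b - a) (fun n x => L n x) n
  have hℓ0 : ℓ 0 = b - a := rfl
  have hℓs : ∀ n, ℓ (n + 1) = L n (ℓ n) := fun n => rfl
  have hinv : ∀ n, 0 < ℓ n ∧ ℓ n ≤ b - a := by
    intro n
    induction n with
    | zero => exact ⟨by rw [hℓ0]; exact hba, by rw [hℓ0]⟩
    | succ n ih =>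
      rw [hℓs]
      refine ⟨h1 n _ ih.1 ih.2, ?_⟩
      have := h2 n _ ih.1 ih.2
      linarith [ih.1, ih.2]
  set T' : ℕ → ℕ := fun n => T n (ℓ n) with hT'
  have hT2 : ∀ n, 2 ≤ T' n := fun n => h3 n _ (hinv n).1 (hinv n).2
  have hTr : ∀ n, (2 : ℝ) ≤ T' n := fun n => by exact_mod_cast hT2 n
  have hPpos : ∀ n, 0 < ∏ i ∈ Finset.range n, (T' i : ℝ) := fun n =>
    Finset.prod_pos fun i _ => by linarith [hTr i]
  have hP2 : ∀ n, (2 : ℝ) ^ n ≤ ∏ i ∈ Finset.range n, (T' i : ℝ) := by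
    intro n
    induction n with
    | zero => simp
    | succ n ih =>
      rw [Finset.prod_range_succ, pow_succ]
      exact mul_le_mul ih (hTr n) (by norm_num) (hPpos n).le
  have hle : ∀ n, ℓ n ≤ (b - a) * (1 / 2) ^ n := by
    intro n
    induction n with
    | zero => simp [hℓ0]
    | succ n ih =>
      rw [hℓs, pow_succ]
      have := h2 n _ (hinv n).1 (hinv n).2
      linarith
  have htend : Tendsto ℓ atTop (𝓝 0) := by
    refine squeeze_zero (fun n => (hinv n).1.le) hle ?_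
    have h6 := (tendsto_pow_atTop_nhds_zero_of_lt_one (by norm_num : (0 : ℝ) ≤ 1 / 2)
      (by norm_num)).const_mul (b - a)
    simpa using h6
  have hkey : ∀ n, (b - a) ^ (s : ℝ) ≤ (∏ i ∈ Finset.range n, (T' i : ℝ)) * ℓ n ^ (s : ℝ) := by
    intro n
    induction n with
    | zero => simp [hℓ0]
    | succ n ih =>
      rw [Finset.prod_range_succ, hℓs, mul_assoc]
      exact ih.trans (mul_le_mul_of_nonneg_left (h4 n _ (hinv n).1 (hinv n).2) (hPpos n).le)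
  have hc0 : 0 < (b - a) ^ (s : ℝ) := Real.rpow_pos_of_pos hba _
  refine hm_children hs (C := C / (b - a) ^ (s : ℝ)) (by positivity) ℓ T' A (fun n => (hinv n).1) htend
    (by rw [hℓ0]) (fun n => by have := hT2 n; omega)
    (tendsto_atTop_mono hP2 (tendsto_pow_atTop_atTop_of_one_lt one_lt_two)) ?_
  intro n w hw1 hw2
  obtain ⟨φ, h6, h7⟩ := h5 n _ (hinv n).1 (hinv n).2 w hw1 hw2
  refine ⟨φ, h6, fun i j hij hj => ⟨(h7 i j hij hj).1, (h7 i j hij hj).2.trans ?_⟩⟩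
  have h8 : 0 ≤ (φ j - φ i - ℓ (n + 1)) ^ (s : ℝ) :=
    Real.rpow_nonneg (by have := (h7 i j hij hj).1; rw [hℓs]; linarith) _
  apply mul_le_mul_of_nonneg_right _ h8
  rw [div_mul_eq_mul_div, le_div_iff₀ hc0]
  have h9 : ℓ n ^ (-(s : ℝ)) * ℓ n ^ (s : ℝ) = 1 := by
    rw [← Real.rpow_add (hinv n).1, neg_add_cancel, Real.rpow_zero]
  have h10 : 0 < ℓ n ^ (-(s : ℝ)) := Real.rpow_pos_of_pos (hinv n).1 _
  have h11 : (0 : ℝ) < T n (ℓ n) := by linarith [hTr n]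
  calc C * (ℓ n ^ (-(s : ℝ)) * (T n (ℓ n) : ℝ)) * (b - a) ^ (s : ℝ)
      ≤ C * (ℓ n ^ (-(s : ℝ)) * (T n (ℓ n) : ℝ)) *
        ((∏ i ∈ Finset.range n, (T' i : ℝ)) * ℓ n ^ (s : ℝ)) :=
        mul_le_mul_of_nonneg_left (hkey n) (by positivity)
    _ = C * ((∏ i ∈ Finset.range n, (T' i : ℝ)) * (T n (ℓ n) : ℝ)) *
        (ℓ n ^ (-(s : ℝ)) * ℓ n ^ (s : ℝ)) := by ring
    _ = _ := by rw [h9, mul_one]

end Pool.Agent.Q273.CJ
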