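import Mathlib
import Pool.Agent.Q273.CJ.Fr
import Pool.Agent.Q273.CJ.Rec

/-!
# Numbers with good approximations `2 ^ i m / p`, `2 ^ i` about `p ^ κ`: positive Hausdorff measure
-/

set_option autoImplicit false

namespace Pool.Agent.Q273.CJ

open Set Filter Topology MeasureTheory
open scoped ENNReal NNReal

/-- `2 ^ idx κ N` is about `N ^ κ / (log N) ^ 2` -/
noncomputable def idx (κ : ℝ) (N : ℕ) : ℕ := Nat.log 2 ⌊(N : ℝ) ^ κ / (Real.log N) ^ 2⌋₊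

lemma idx_le {κ : ℝ} {N : ℕ} (h : 1 ≤ (N : ℝ) ^ κ / (Real.log N) ^ 2) :
    (2 : ℝ) ^ idx κ N ≤ (N : ℝ) ^ κ / (Real.log N) ^ 2 := by
  have h1 : ⌊(N : ℝ) ^ κ / (Real.log N) ^ 2⌋₊ ≠ 0 := by
    have := Nat.le_floor (n := 1) (by push_cast; exact h)
    omega
  have h2 := Nat.pow_log_le_self 2 h1
  have h3 : (2 : ℝ) ^ idx κ N ≤ (⌊(N : ℝ) ^ κ / (Real.log N) ^ 2⌋₊ : ℝ) := by
    unfold idx
    exact_mod_cast h2
  exact h3.trans (Nat.floor_le (by positivity))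

lemma lt_idx {κ : ℝ} {N : ℕ} :
    (N : ℝ) ^ κ / (Real.log N) ^ 2 < 2 * (2 : ℝ) ^ idx κ N := by
  have h2 := Nat.lt_pow_succ_log_self (by norm_num : 1 < 2) ⌊(N : ℝ) ^ κ / (Real.log N) ^ 2⌋₊
  have h3 : (⌊(N : ℝ) ^ κ / (Real.log N) ^ 2⌋₊ : ℝ) + 1 ≤ 2 * (2 : ℝ) ^ idx κ N := by
    unfold idx
    have h4 : ⌊(N : ℝ) ^ κ / (Real.log N) ^ 2⌋₊ + 1 ≤
        2 * 2 ^ Nat.log 2 ⌊(N : ℝ) ^ κ / (Real.log N) ^ 2⌋₊ := by
      generalize ⌊(N : ℝ) ^ κ / (Real.log N) ^ 2⌋₊ = k at h2 ⊢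
      rw [pow_succ] at h2
      omega
    exact_mod_cast h4
  have h5 := Nat.lt_floor_add_one ((N : ℝ) ^ κ / (Real.log N) ^ 2)
  linarith

/-- the numbers approximated by a fraction of level at least `n` -/
def Apx (κ τ : ℝ) (n : ℕ) : Set ℝ :=
  {η : ℝ | ∃ N : ℕ, n ≤ N ∧ ∃ p m : ℕ, p.Prime ∧ N < 4 * p ∧ p ≤ N ∧ 0 < m ∧
    2 ^ idx κ N * m < p ∧ 0 < η - (2 : ℝ) ^ idx κ N * m / p ∧
    η - (2 : ℝ) ^ idx κ N * m / p ≤ (N : ℝ) ^ (-τ) / 4}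

/-- the main inequality between the parameters -/
lemma param {σ κ ℓ N ρ Pc Lg : ℝ} (hσ0 : 0 < σ) (hσ1 : σ < 1) (hℓ : 0 < ℓ)
    (hN : 1 ≤ N) (hρ : 0 < ρ) (hρN : ρ ≤ N ^ κ) (hLg : 1 ≤ Lg) (hPc : N / (4 * Lg) ≤ Pc)
    (h7 : 24 * Lg ≤ ℓ ^ (1 - σ) * N ^ ((1 - κ) * (1 - σ))) :
    (4 * Pc) ^ (1 - σ) * (96 * ρ) ≤ 64 * ℓ ^ (1 - σ) * (Pc * N * (ρ / N ^ 2) ^ σ) := by
  have hN0 : 0 < N := by linarith
  have hPc0 : 0 < Pc := lt_of_lt_of_le (by positivity) hPc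
  have hσ' : 0 < 1 - σ := by linarith
  have e1 : (4 * Pc) ^ (1 - σ) ≤ 4 * Pc ^ (1 - σ) := by
    rw [Real.mul_rpow (by norm_num) hPc0.le]
    apply mul_le_mul_of_nonneg_right _ (by positivity)
    calc (4 : ℝ) ^ (1 - σ) ≤ 4 ^ (1 : ℝ) :=
          Real.rpow_le_rpow_of_exponent_le (by norm_num) (by linarith)
      _ = 4 := Real.rpow_one 4
  have e2 : Pc = Pc ^ (1 - σ) * Pc ^ σ := by
    rw [← Real.rpow_add hPc0]
    simp
  have e3 : (ρ / N ^ 2) ^ σ = ρ ^ σ * N ^ (-(2 * σ)) := by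
    rw [Real.div_rpow hρ.le (by positivity), ← Real.rpow_natCast, ← Real.rpow_mul hN0.le,
      Real.rpow_neg hN0.le, div_eq_mul_inv]
    norm_num
  have e4 : ρ = ρ ^ (1 - σ) * ρ ^ σ := by
    rw [← Real.rpow_add hρ]
    simp
  have e5 : ρ ^ (1 - σ) ≤ N ^ (κ * (1 - σ)) := by
    rw [Real.rpow_mul hN0.le]
    exact Real.rpow_le_rpow hρ.le hρN hσ'.le
  have e6 : N ^ σ / (4 * Lg) ≤ Pc ^ σ := by
    calc N ^ σ / (4 * Lg) ≤ N ^ σ / (4 * Lg) ^ σ := by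
          apply div_le_div_of_nonneg_left (by positivity) (by positivity)
          calc (4 * Lg) ^ σ ≤ (4 * Lg) ^ (1 : ℝ) :=
                Real.rpow_le_rpow_of_exponent_le (by linarith) hσ1.le
            _ = 4 * Lg := Real.rpow_one _
      _ = (N / (4 * Lg)) ^ σ := (Real.div_rpow hN0.le (by positivity) σ).symm
      _ ≤ _ := Real.rpow_le_rpow (by positivity) hPc hσ0.le
  have e7 : N ^ σ * (N * N ^ (-(2 * σ))) = N ^ (κ * (1 - σ)) * N ^ ((1 - κ) * (1 - σ)) := by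
    rw [← Real.rpow_add hN0]
    nth_rw 2 [← Real.rpow_one N]
    rw [← Real.rpow_add hN0, ← Real.rpow_add hN0]
    congr 1
    ring
  have hkey : 384 * ρ ^ (1 - σ) ≤ 64 * ℓ ^ (1 - σ) * (Pc ^ σ * (N * N ^ (-(2 * σ)))) := by
    calc 384 * ρ ^ (1 - σ) ≤ 384 * N ^ (κ * (1 - σ)) := by linarith
      _ ≤ 64 * ℓ ^ (1 - σ) * (N ^ σ / (4 * Lg) * (N * N ^ (-(2 * σ)))) := by
          have e8 : 64 * ℓ ^ (1 - σ) * (N ^ σ / (4 * Lg) * (N * N ^ (-(2 * σ)))) =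
              (16 / Lg) * (ℓ ^ (1 - σ) * N ^ ((1 - κ) * (1 - σ))) * N ^ (κ * (1 - σ)) := by
            have : N ^ σ / (4 * Lg) * (N * N ^ (-(2 * σ))) =
                (N ^ σ * (N * N ^ (-(2 * σ)))) / (4 * Lg) := by ring
            rw [this, e7]
            field_simp
            ring
          rw [e8]
          apply mul_le_mul_of_nonneg_right _ (by positivity)
          calc (384 : ℝ) = 16 / Lg * (24 * Lg) := by field_simp; norm_num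
            _ ≤ _ := mul_le_mul_of_nonneg_left h7 (by positivity)
      _ ≤ _ := by
          apply mul_le_mul_of_nonneg_left _ (by positivity)
          exact mul_le_mul_of_nonneg_right e6 (by positivity)
  calc (4 * Pc) ^ (1 - σ) * (96 * ρ) ≤ (4 * Pc ^ (1 - σ)) * (96 * ρ) :=
        mul_le_mul_of_nonneg_right e1 (by positivity)
    _ = 384 * ρ ^ (1 - σ) * (Pc ^ (1 - σ) * ρ ^ σ) := by
        nth_rw 1 [e4]
        ring
    _ ≤ 64 * ℓ ^ (1 - σ) * (Pc ^ σ * (N * N ^ (-(2 * σ)))) * (Pc ^ (1 - σ) * ρ ^ σ) :=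
        mul_le_mul_of_nonneg_right hkey (by positivity)
    _ = 64 * ℓ ^ (1 - σ) * ((Pc ^ (1 - σ) * Pc ^ σ) * N * (ρ ^ σ * N ^ (-(2 * σ)))) := by ring
    _ = _ := by rw [← e2, ← e3]

/-- case A of the step: many points -/
lemma caseA {σ ℓ N ρ Pc Tn Δ gap D : ℝ} (hσ1 : σ < 1) (hℓ : 0 < ℓ) (hN : 0 < N) (hρ : 0 < ρ)
    (hPc : 0 < Pc) (hT : Pc * ℓ * N / (32 * ρ) ≤ Tn) (hgap : 0 < gap) (hgapℓ : gap ≤ ℓ)
    (hΔ : Δ ≤ 8 / 7 * gap) (hD : D ≤ Pc * (Δ * N / ρ + 1)) (hDP : 4 * Pc ≤ D) :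
    D ≤ 64 * (ℓ ^ (-σ) * Tn) * gap ^ σ := by
  have h1 : 3 ≤ Δ * N / ρ := by
    have : Pc * 4 ≤ Pc * (Δ * N / ρ + 1) := by linarith
    have := le_of_mul_le_mul_left this hPc
    linarith
  have h2 : D ≤ 4 / 3 * (Pc * (Δ * N / ρ)) := by
    have : Pc * 1 ≤ Pc * ((Δ * N / ρ) / 3) := mul_le_mul_of_nonneg_left (by linarith) hPc.le
    linarith
  have h3 : Δ * N / ρ ≤ 8 / 7 * gap * N / ρ := by gcongr
  have h4 : D ≤ 2 * (Pc * (gap * N / ρ)) := by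
    have h5 : 0 ≤ Pc * (gap * N / ρ) := by positivity
    have h6 : Pc * (Δ * N / ρ) ≤ Pc * (8 / 7 * gap * N / ρ) := mul_le_mul_of_nonneg_left h3 hPc.le
    have h7 : Pc * (8 / 7 * gap * N / ρ) = 8 / 7 * (Pc * (gap * N / ρ)) := by ring
    linarith
  have h5 : gap = gap ^ (1 - σ) * gap ^ σ := by
    rw [← Real.rpow_add hgap]
    simp
  have h6 : gap ^ (1 - σ) ≤ ℓ ^ (1 - σ) := Real.rpow_le_rpow hgap.le hgapℓ (by linarith)
  have h7 : ℓ ^ (1 - σ) = ℓ * ℓ ^ (-σ) := by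
    rw [sub_eq_add_neg, Real.rpow_add hℓ, Real.rpow_one]
  calc D ≤ 2 * (Pc * (gap * N / ρ)) := h4
    _ = 2 * (Pc * N / ρ) * (gap ^ (1 - σ) * gap ^ σ) := by rw [← h5]; ring
    _ ≤ 2 * (Pc * N / ρ) * (ℓ ^ (1 - σ) * gap ^ σ) := by gcongr
    _ = 64 * (ℓ ^ (-σ) * (Pc * ℓ * N / (32 * ρ))) * gap ^ σ := by
        rw [h7]
        field_simp
        norm_num
    _ ≤ _ := by gcongr

/-- case B of the step: few points -/
lemma caseB {σ ℓ N ρ Pc Tn gap D : ℝ} (hσ0 : 0 < σ) (hσ1 : σ < 1) (hℓ : 0 < ℓ) (hN : 0 < N)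
    (hρ : 0 < ρ) (hPc : 0 < Pc) (hT : Pc * ℓ * N / (32 * ρ) ≤ Tn) (hD0 : 0 < D)
    (hgap : D * ρ / (3 * N ^ 2) ≤ gap) (hDP : D < 4 * Pc)
    (hp : (4 * Pc) ^ (1 - σ) * (96 * ρ) ≤ 64 * ℓ ^ (1 - σ) * (Pc * N * (ρ / N ^ 2) ^ σ)) :
    D ≤ 64 * (ℓ ^ (-σ) * Tn) * gap ^ σ := by
  have h1 : D = D ^ (1 - σ) * D ^ σ := by
    rw [← Real.rpow_add hD0]
    simp
  have h2 : D ^ (1 - σ) ≤ (4 * Pc) ^ (1 - σ) := Real.rpow_le_rpow hD0.le hDP.le (by linarith)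
  have h3 : (D * ρ / (3 * N ^ 2)) ^ σ ≤ gap ^ σ := Real.rpow_le_rpow (by positivity) hgap hσ0.le
  have h4 : D ^ σ * (ρ / N ^ 2) ^ σ / 3 ≤ (D * ρ / (3 * N ^ 2)) ^ σ := by
    have e : D * ρ / (3 * N ^ 2) = D * (ρ / N ^ 2) / 3 := by ring
    have e2 : (D * (ρ / N ^ 2) / 3) ^ σ = D ^ σ * (ρ / N ^ 2) ^ σ / 3 ^ σ := by
      rw [Real.div_rpow (by positivity) (by norm_num),
        Real.mul_rpow hD0.le (by positivity : (0 : ℝ) ≤ ρ / N ^ 2)]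
    rw [e, e2]
    apply div_le_div_of_nonneg_left (by positivity) (by positivity)
    calc (3 : ℝ) ^ σ ≤ 3 ^ (1 : ℝ) := Real.rpow_le_rpow_of_exponent_le (by norm_num) hσ1.le
      _ = 3 := Real.rpow_one 3
  have h7 : ℓ ^ (1 - σ) = ℓ * ℓ ^ (-σ) := by
    rw [sub_eq_add_neg, Real.rpow_add hℓ, Real.rpow_one]
  have h8 : D ^ (1 - σ) * (96 * ρ) ≤ 64 * ℓ ^ (1 - σ) * (Pc * N * (ρ / N ^ 2) ^ σ) :=
    (mul_le_mul_of_nonneg_right h2 (by positivity)).trans hp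
  have h9 : D ^ (1 - σ) ≤ 64 * ℓ ^ (1 - σ) * (Pc * N * (ρ / N ^ 2) ^ σ) / (96 * ρ) := by
    rw [le_div_iff₀ (by positivity)]
    exact h8
  calc D = D ^ (1 - σ) * D ^ σ := h1
    _ ≤ 64 * ℓ ^ (1 - σ) * (Pc * N * (ρ / N ^ 2) ^ σ) / (96 * ρ) * D ^ σ := by gcongr
    _ = 64 * (ℓ ^ (-σ) * (Pc * ℓ * N / (32 * ρ))) * (D ^ σ * (ρ / N ^ 2) ^ σ / 3) := by
        rw [h7]
        field_simp
        ring
    _ ≤ 64 * (ℓ ^ (-σ) * Tn) * gap ^ σ := by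
        have h10 : D ^ σ * (ρ / N ^ 2) ^ σ / 3 ≤ gap ^ σ := h4.trans h3
        have h11 : 0 ≤ Tn := le_trans (by positivity) hT
        gcongr

/-- the conditions on the level -/
lemma conditions {κ τ σ ℓ : ℝ} (hκ0 : 0 < κ) (hκ1 : κ < 1) (hτ : 0 < τ) (hσ1 : σ < 1)
    (hℓ : 0 < ℓ) : ∀ᶠ N : ℕ in atTop, (N : ℝ) / (4 * Real.log N) ≤ ((primes N).card : ℝ) ∧
      (N : ℝ) ^ (-τ) ≤ ℓ ∧ 1 ≤ (N : ℝ) ^ κ / (Real.log N) ^ 2 ∧
      32 ≤ ℓ * N / (N : ℝ) ^ κ ∧ 1024 * ℓ ^ (σ - 1) ≤ Real.log N ∧ 1 ≤ Real.log N ∧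
      24 * Real.log N ≤ ℓ ^ (1 - σ) * (N : ℝ) ^ ((1 - κ) * (1 - σ)) := by
  have hcast := tendsto_natCast_atTop_atTop (R := ℝ)
  have h1 : ∀ᶠ N : ℕ in atTop, (N : ℝ) ^ (-τ) ≤ ℓ := by
    have := (tendsto_rpow_neg_atTop hτ).comp hcast
    exact this.eventually_le_const hℓ
  have h2 : ∀ᶠ N : ℕ in atTop, 1 ≤ (N : ℝ) ^ κ / (Real.log N) ^ 2 := by
    have h3 : (fun x : ℝ => Real.log x) =o[atTop] fun x => x ^ (κ / 2) :=
      isLittleO_log_rpow_atTop (by positivity)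
    have h4 := (h3.bound (by norm_num : (0 : ℝ) < 1))
    have h5 : ∀ᶠ x : ℝ in atTop, 1 ≤ x ^ κ / (Real.log x) ^ 2 := by
      filter_upwards [h4, eventually_gt_atTop (1 : ℝ)] with x hx hx1
      have hx0 : 0 < x := by linarith
      have hl : 0 < Real.log x := Real.log_pos hx1
      rw [Real.norm_of_nonneg hl.le, Real.norm_of_nonneg (by positivity), one_mul] at hx
      rw [le_div_iff₀ (by positivity), one_mul]
      calc Real.log x ^ 2 ≤ (x ^ (κ / 2)) ^ 2 := by gcongr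
        _ = x ^ κ := by
            rw [← Real.rpow_natCast, ← Real.rpow_mul hx0.le]
            norm_num
    exact hcast.eventually h5
  have h3 : ∀ᶠ N : ℕ in atTop, 32 ≤ ℓ * N / (N : ℝ) ^ κ := by
    have h4 : ∀ᶠ x : ℝ in atTop, 32 / ℓ ≤ x ^ (1 - κ) :=
      (tendsto_rpow_atTop (by linarith)).eventually_ge_atTop _
    have h5 : ∀ᶠ x : ℝ in atTop, 32 ≤ ℓ * x / x ^ κ := by
      filter_upwards [h4, eventually_gt_atTop (1 : ℝ)] with x hx hx1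
      have hx0 : 0 < x := by linarith
      rw [Real.rpow_sub hx0, Real.rpow_one, div_le_iff₀ hℓ] at hx
      calc (32 : ℝ) ≤ x / x ^ κ * ℓ := hx
        _ = ℓ * x / x ^ κ := by ring
    exact hcast.eventually h5
  have h4 : ∀ᶠ N : ℕ in atTop, 1024 * ℓ ^ (σ - 1) ≤ Real.log N :=
    (Real.tendsto_log_atTop.comp hcast).eventually_ge_atTop _
  have h5 : ∀ᶠ N : ℕ in atTop, 1 ≤ Real.log N :=
    (Real.tendsto_log_atTop.comp hcast).eventually_ge_atTop _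
  have h6 : ∀ᶠ N : ℕ in atTop,
      24 * Real.log N ≤ ℓ ^ (1 - σ) * (N : ℝ) ^ ((1 - κ) * (1 - σ)) := by
    have hp : 0 < (1 - κ) * (1 - σ) := mul_pos (by linarith) (by linarith)
    have h3 : (fun x : ℝ => Real.log x) =o[atTop] fun x => x ^ ((1 - κ) * (1 - σ)) :=
      isLittleO_log_rpow_atTop hp
    have h4 := h3.bound (c := ℓ ^ (1 - σ) / 24) (by positivity)
    have h5 : ∀ᶠ x : ℝ in atTop, 24 * Real.log x ≤ ℓ ^ (1 - σ) * x ^ ((1 - κ) * (1 - σ)) := by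
      filter_upwards [h4, eventually_gt_atTop (1 : ℝ)] with x hx hx1
      have hx0 : 0 < x := by linarith
      have hl : 0 < Real.log x := Real.log_pos hx1
      rw [Real.norm_of_nonneg hl.le, Real.norm_of_nonneg (by positivity)] at hx
      linarith
    exact hcast.eventually h5
  filter_upwards [card_primes, h1, h2, h3, h4, h5, h6] with N a1 a2 a3 a4 a5 a6 a7
  exact ⟨a1, a2, a3, a4, a5, a6, a7⟩

/-- the step of the construction -/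
theorem step {κ τ : ℝ} (hκ0 : 0 < κ) (hκ1 : κ < 1) (hτ : 2 ≤ τ) (n : ℕ) (ℓ : ℝ) (hℓ : 0 < ℓ)
    (hℓ1 : ℓ ≤ 3 / 4 - 1 / 4) : ∃ (ℓ' : ℝ) (T : ℕ), 0 < ℓ' ∧ ℓ' ≤ ℓ / 2 ∧
      2 ≤ T ∧ ℓ ^ ((2 - κ) / τ) ≤ T * ℓ' ^ ((2 - κ) / τ) ∧
      ∀ w, 1 / 4 ≤ w → w + ℓ ≤ 3 / 4 → ∃ φ : ℕ → ℝ,
        (∀ j, j < T → w ≤ φ j ∧ φ j + ℓ' ≤ w + ℓ ∧ Icc (φ j) (φ j + ℓ') ⊆ Apx κ τ n) ∧
        ∀ i j : ℕ, i < j → j < T → φ i + ℓ' ≤ φ j ∧
          (j : ℝ) - i + 1 ≤ 64 * (ℓ ^ (-((2 - κ) / τ)) * T) * (φ j - φ i - ℓ') ^ ((2 - κ) / τ) := by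
  set σ := (2 - κ) / τ with hσ
  have hτ0 : 0 < τ := by linarith
  have hσ0 : 0 < σ := div_pos (by linarith) hτ0
  have hσ1 : σ < 1 := by rw [hσ, div_lt_one hτ0]; linarith
  obtain ⟨N, ⟨c1, c2, c3, c4, c5, c6, c7⟩, hN2, hNn⟩ := ((conditions hκ0 hκ1 hτ0 hσ1 hℓ).and
    ((eventually_ge_atTop 2).and (eventually_ge_atTop n))).exists
  have hN1 : (1 : ℝ) ≤ N := by exact_mod_cast (by omega : 1 ≤ N)
  have hN0 : (0 : ℝ) < N := by linarith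
  set Lg := Real.log N with hLg
  have hLg0 : 0 < Lg := by linarith
  set ρ : ℝ := 2 ^ idx κ N with hρ
  have hρ0 : 0 < ρ := by positivity
  have hρ1 : 1 ≤ ρ := one_le_pow₀ (by norm_num)
  have hρL : ρ ≤ (N : ℝ) ^ κ / Lg ^ 2 := idx_le c3
  have hρN : ρ ≤ (N : ℝ) ^ κ := by
    refine hρL.trans (div_le_self (by positivity) ?_)
    exact one_le_pow₀ c6
  set Pc : ℝ := ((primes N).card : ℝ) with hPc
  have hPc0 : 0 < Pc := lt_of_lt_of_le (by positivity) c1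
  have hPc1 : 1 ≤ Pc := by
    have h0 : 0 < (primes N).card := by
      rw [hPc] at hPc0
      exact_mod_cast hPc0
    rw [hPc]
    exact_mod_cast (h0 : 1 ≤ (primes N).card)
  have hNρ : 32 ≤ ℓ * N / ρ := c4.trans (by gcongr)
  -- the number of points
  set T : ℕ := ⌊Pc * ℓ * N / (16 * ρ)⌋₊ with hT
  have hX : 2 ≤ Pc * ℓ * N / (16 * ρ) := by
    have e : Pc * ℓ * N / (16 * ρ) = Pc * (ℓ * N / ρ) / 16 := by ring
    rw [e]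
    nlinarith
  have hT2 : 2 ≤ T := Nat.le_floor (by exact_mod_cast hX)
  have hT1 : (T : ℝ) ≤ Pc * ℓ * N / (16 * ρ) := Nat.floor_le (by linarith)
  have hT3 : Pc * ℓ * N / (32 * ρ) ≤ T := by
    have h1 := Nat.lt_floor_add_one (Pc * ℓ * N / (16 * ρ))
    have e : Pc * ℓ * N / (32 * ρ) = Pc * ℓ * N / (16 * ρ) / 2 := by ring
    rw [e]
    linarith
  -- the length
  set ℓ' : ℝ := (N : ℝ) ^ (-τ) / 8 with hℓ'
  have hNτ : 0 < (N : ℝ) ^ (-τ) := Real.rpow_pos_of_pos hN0 _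
  have hℓ'0 : 0 < ℓ' := by positivity
  have hℓ'N : ℓ' ≤ ρ / (8 * (N : ℝ) ^ 2) := by
    have h1 : (N : ℝ) ^ (-τ) ≤ (N : ℝ) ^ (-(2 : ℝ)) :=
      Real.rpow_le_rpow_of_exponent_le hN1 (by linarith)
    have h2 : (N : ℝ) ^ (-(2 : ℝ)) = 1 / (N : ℝ) ^ 2 := by
      rw [Real.rpow_neg hN0.le, one_div]
      norm_num
    calc ℓ' ≤ 1 / (N : ℝ) ^ 2 / 8 := by rw [hℓ', ← h2]; gcongr
      _ ≤ ρ / (N : ℝ) ^ 2 / 8 := by gcongr
      _ = _ := by rw [div_div, mul_comm ((N : ℝ) ^ 2) 8]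
  refine ⟨ℓ', T, hℓ'0, by linarith, hT2, ?_, ?_⟩
  · -- the mass condition
    have h1 : (N : ℝ) ^ (-(2 - κ)) / 8 ≤ ℓ' ^ σ := by
      rw [hℓ', Real.div_rpow hNτ.le (by norm_num), ← Real.rpow_mul hN0.le]
      have e : -τ * σ = -(2 - κ) := by
        rw [hσ]
        field_simp
      rw [e]
      apply div_le_div_of_nonneg_left (by positivity) (by positivity)
      calc (8 : ℝ) ^ σ ≤ 8 ^ (1 : ℝ) := Real.rpow_le_rpow_of_exponent_le (by norm_num) hσ1.le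
        _ = 8 := Real.rpow_one 8
    have h2 : ℓ * (N : ℝ) ^ (2 - κ) * Lg / 128 ≤ T := by
      refine le_trans ?_ hT3
      rw [le_div_iff₀ (by positivity)]
      have e : (N : ℝ) ^ (2 - κ) * (N : ℝ) ^ κ = N ^ 2 := by
        rw [← Real.rpow_add hN0, ← Real.rpow_natCast]
        norm_num
      calc ℓ * (N : ℝ) ^ (2 - κ) * Lg / 128 * (32 * ρ)
          ≤ ℓ * (N : ℝ) ^ (2 - κ) * Lg / 128 * (32 * ((N : ℝ) ^ κ / Lg ^ 2)) := by gcongr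
        _ = ((N : ℝ) ^ (2 - κ) * (N : ℝ) ^ κ) * ℓ / (4 * Lg) := by
            field_simp
            norm_num
        _ = N / (4 * Lg) * ℓ * N := by rw [e]; ring
        _ ≤ Pc * ℓ * N := by gcongr
    have h3 : (N : ℝ) ^ (2 - κ) * (N : ℝ) ^ (-(2 - κ)) = 1 := by
      rw [← Real.rpow_add hN0, add_neg_cancel, Real.rpow_zero]
    have h4 : ℓ ^ σ = ℓ * ℓ ^ (σ - 1) := by
      rw [Real.rpow_sub hℓ, Real.rpow_one]
      field_simp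
    calc ℓ ^ σ = ℓ * ℓ ^ (σ - 1) := h4
      _ ≤ ℓ * (Lg / 1024) := by
          apply mul_le_mul_of_nonneg_left _ hℓ.le
          linarith
      _ = (ℓ * ((N : ℝ) ^ (2 - κ) * (N : ℝ) ^ (-(2 - κ))) * Lg / 128) / 8 := by
          rw [h3]
          ring
      _ = (ℓ * (N : ℝ) ^ (2 - κ) * Lg / 128) * ((N : ℝ) ^ (-(2 - κ)) / 8) := by ring
      _ ≤ T * ℓ' ^ σ := by gcongr
  intro w hw1 hw2
  set v := w + ℓ / 2 with hv
  have hw0 : 0 < w := by linarith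
  have hv1 : v < 1 := by rw [hv]; linarith
  have hwv : w ≤ v := by rw [hv]; linarith
  have hcard : T ≤ (F (idx κ N) N w v).card := by
    have h1 := le_card_F (i := idx κ N) (N := N) hw0 hv1 hwv
    have h2 : Pc * ℓ * N / (16 * ρ) ≤ Pc * ((v - w) * N / (4 * ρ) - 1) := by
      have e : Pc * ℓ * N / (16 * ρ) = Pc * (ℓ * N / ρ / 16) := by ring
      rw [e]
      apply mul_le_mul_of_nonneg_left _ hPc0.le
      have e2 : (v - w) * N / (4 * ρ) = ℓ * N / ρ / 8 := by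
        rw [hv]
        ring
      rw [e2]
      linarith
    exact_mod_cast hT1.trans (h2.trans h1)
  obtain ⟨φ, h1, h2⟩ := enum_real (F (idx κ N) N w v) (ρ / (N : ℝ) ^ 2) (F_sep hw0 hv1 hwv)
  have hmem : ∀ j, j < T → ∃ p m : ℕ, p ∈ primes N ∧ 0 < m ∧ 2 ^ idx κ N * m < p ∧
      φ j = 2 ^ idx κ N * m / p ∧ w ≤ φ j ∧ φ j ≤ v := fun j hj =>
    (mem_F hw0 hv1 hwv).1 (h1 j (by omega))
  refine ⟨fun j => φ j + ℓ', fun j hj => ?_, fun i j hij hj => ?_⟩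
  · obtain ⟨p, m, hp, hm, hlt, hr, h3, h4⟩ := hmem j hj
    refine ⟨by linarith, ?_, ?_⟩
    · have : v = w + ℓ / 2 := hv
      have : ℓ' = (N : ℝ) ^ (-τ) / 8 := hℓ'
      show φ j + ℓ' + ℓ' ≤ w + ℓ
      linarith
    · intro η hη
      rw [mem_Icc] at hη
      have hp' := mem_primes.1 hp
      refine ⟨N, hNn, p, m, hp'.1, hp'.2.1, hp'.2.2, hm, hlt, ?_, ?_⟩
      · rw [← hr]
        linarith [hη.1]
      · rw [← hr]
        have : ℓ' = (N : ℝ) ^ (-τ) / 8 := hℓ'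
        linarith [hη.2]
  · obtain ⟨h3, h4, h5⟩ := h2 i j hij (by omega)
    set Δ := φ j - φ i with hΔ
    have hij' : (i : ℝ) + 1 ≤ j := by exact_mod_cast hij
    set D : ℝ := (j : ℝ) - i + 1 with hD
    have hρN2 : 0 < ρ / (N : ℝ) ^ 2 := by positivity
    have hΔ1 : ((j : ℝ) - i) * (ρ / (N : ℝ) ^ 2) ≤ Δ := by rw [hΔ]; linarith
    have hΔ2 : ρ / (N : ℝ) ^ 2 ≤ Δ := by
      refine le_trans ?_ hΔ1
      nlinarith
    have e8 : ρ / (8 * (N : ℝ) ^ 2) = ρ / (N : ℝ) ^ 2 / 8 := by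
      rw [div_div, mul_comm ((N : ℝ) ^ 2) 8]
    rw [e8] at hℓ'N
    have hgapΔ : 7 / 8 * Δ ≤ Δ - ℓ' := by linarith
    have hgap0 : 0 < Δ - ℓ' := by linarith
    have hgapeq : φ j + ℓ' - (φ i + ℓ') - ℓ' = Δ - ℓ' := by rw [hΔ]; ring
    refine ⟨by show φ i + ℓ' + ℓ' ≤ φ j + ℓ'; linarith, ?_⟩
    show D ≤ _
    rw [hgapeq]
    have hD0 : 0 < D := by rw [hD]; linarith
    have hgapD : D * ρ / (3 * (N : ℝ) ^ 2) ≤ Δ - ℓ' := by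
      refine le_trans ?_ hgapΔ
      have e : D * ρ / (3 * (N : ℝ) ^ 2) = D / 3 * (ρ / (N : ℝ) ^ 2) := by
        field_simp
      rw [e]
      have : D / 3 ≤ 7 / 8 * ((j : ℝ) - i) := by rw [hD]; linarith
      calc D / 3 * (ρ / (N : ℝ) ^ 2) ≤ 7 / 8 * ((j : ℝ) - i) * (ρ / (N : ℝ) ^ 2) := by gcongr
        _ = 7 / 8 * (((j : ℝ) - i) * (ρ / (N : ℝ) ^ 2)) := by ring
        _ ≤ _ := by linarith
    obtain ⟨-, -, -, -, -, -, h6, -⟩ := hmem i (by omega)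
    obtain ⟨-, -, -, -, -, -, -, h7⟩ := hmem j hj
    have hgapℓ : Δ - ℓ' ≤ ℓ := by
      have : v = w + ℓ / 2 := hv
      rw [hΔ]
      linarith
    rcases le_or_gt (4 * Pc) D with hc | hc
    · refine caseA hσ1 hℓ hN0 hρ0 hPc0 hT3 hgap0 hgapℓ (Δ := Δ) (by linarith) ?_ hc
      have h8 := card_filter_F (i := idx κ N) (N := N) (w := w) (v := v) (hw0.le.trans h6) h3.le
      refine le_trans ?_ h8
      have h9 : (((j - i + 1 : ℕ) : ℝ)) ≤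
          (((F (idx κ N) N w v).filter fun x => φ i ≤ x ∧ x ≤ φ j).card : ℝ) := by
        exact_mod_cast h5
      refine le_trans ?_ h9
      rw [hD, Nat.cast_add, Nat.cast_sub hij.le]
      push_cast
      linarith
    · exact caseB hσ0 hσ1 hℓ hN0 hρ0 hPc0 hT3 hD0 hgapD hc
        (param hσ0 hσ1 hℓ hN1 hρ0 hρN c6 c1 c7)

/-- **positive Hausdorff measure** -/
theorem pos_measure {κ τ : ℝ} (hκ0 : 0 < κ) (hκ1 : κ < 1) (hτ : 2 ≤ τ) :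
    μH[(2 - κ) / τ] {α : ℝ | 1 / 4 ≤ α ∧ α ≤ 3 / 4 ∧ ∀ n, α ∈ Apx κ τ n} ≠ 0 := by
  have hτ0 : 0 < τ := by linarith
  have hσ0 : 0 < (2 - κ) / τ := div_pos (by linarith) hτ0
  exact hm_rec (s := ⟨(2 - κ) / τ, hσ0.le⟩) (C := 64) (NNReal.coe_pos.1 hσ0) (by norm_num)
    (by norm_num) (Apx κ τ) fun n ℓ hℓ hℓ1 => step hκ0 hκ1 hτ n ℓ hℓ hℓ1

end Pool.Agent.Q273.CJ
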