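import Mathlib
import Pool.Agent.Q273.CJ.Fr2
import Pool.Agent.Q273.CJ.Step

/-!
# Numbers with good approximations `2 ^ i x / (3 ^ j p)`: positive Hausdorff measure
-/

set_option autoImplicit false

namespace Pool.Agent.Q273.CJ

open Set Filter Topology MeasureTheory
open scoped ENNReal NNReal

/-- `3 ^ jdx κ N` is about `N ^ (κ / 2) / log N` -/
noncomputable def jdx (κ : ℝ) (N : ℕ) : ℕ := Nat.log 3 ⌊(N : ℝ) ^ (κ / 2) / Real.log N⌋₊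

/-- `3 ^ j < 2 ^ idx2 κ N ≤ 2 * 3 ^ j` -/
noncomputable def idx2 (κ : ℝ) (N : ℕ) : ℕ := Nat.log 2 (3 ^ jdx κ N) + 1

/-- the bound for the prime -/
noncomputable def ydx (κ : ℝ) (N : ℕ) : ℕ := N / 3 ^ jdx κ N

lemma jdx_le {κ : ℝ} {N : ℕ} (h : 1 ≤ (N : ℝ) ^ (κ / 2) / Real.log N) :
    (3 : ℝ) ^ jdx κ N ≤ (N : ℝ) ^ (κ / 2) / Real.log N := by
  have h1 : ⌊(N : ℝ) ^ (κ / 2) / Real.log N⌋₊ ≠ 0 := by
    have := Nat.le_floor (n := 1) (by push_cast; exact h)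
    omega
  have h2 := Nat.pow_log_le_self 3 h1
  have h3 : (3 : ℝ) ^ jdx κ N ≤ (⌊(N : ℝ) ^ (κ / 2) / Real.log N⌋₊ : ℝ) := by
    unfold jdx
    exact_mod_cast h2
  exact h3.trans (Nat.floor_le (by linarith))

lemma lt_jdx {κ : ℝ} {N : ℕ} :
    (N : ℝ) ^ (κ / 2) / Real.log N < 3 * (3 : ℝ) ^ jdx κ N := by
  have h2 := Nat.lt_pow_succ_log_self (by norm_num : 1 < 3) ⌊(N : ℝ) ^ (κ / 2) / Real.log N⌋₊
  have h3 : (⌊(N : ℝ) ^ (κ / 2) / Real.log N⌋₊ : ℝ) + 1 ≤ 3 * (3 : ℝ) ^ jdx κ N := by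
    unfold jdx
    have h4 : ⌊(N : ℝ) ^ (κ / 2) / Real.log N⌋₊ + 1 ≤
        3 * 3 ^ Nat.log 3 ⌊(N : ℝ) ^ (κ / 2) / Real.log N⌋₊ := by
      generalize ⌊(N : ℝ) ^ (κ / 2) / Real.log N⌋₊ = k at h2 ⊢
      rw [pow_succ] at h2
      omega
    exact_mod_cast h4
  have h5 := Nat.lt_floor_add_one ((N : ℝ) ^ (κ / 2) / Real.log N)
  linarith

lemma lt_idx2 (κ : ℝ) (N : ℕ) : 3 ^ jdx κ N < 2 ^ idx2 κ N :=
  Nat.lt_pow_succ_log_self (by norm_num) _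

lemma idx2_le (κ : ℝ) (N : ℕ) : 2 ^ idx2 κ N ≤ 2 * 3 ^ jdx κ N := by
  unfold idx2
  rw [pow_succ, mul_comm]
  exact Nat.mul_le_mul_left 2 (Nat.pow_log_le_self 2 (by positivity))

/-- the numbers approximated by a fraction of level at least `n` -/
def Apx2 (κ τ : ℝ) (n : ℕ) : Set ℝ :=
  {η : ℝ | ∃ N : ℕ, n ≤ N ∧ ∃ p m : ℕ, p.Prime ∧ ydx κ N < 4 * p ∧ p ≤ ydx κ N ∧
    2 ^ idx2 κ N * (3 * m + 1) < 3 ^ jdx κ N * p ∧
    0 < η - (2 : ℝ) ^ idx2 κ N * (3 * m + 1) / (3 ^ jdx κ N * p) ∧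
    η - (2 : ℝ) ^ idx2 κ N * (3 * m + 1) / (3 ^ jdx κ N * p) ≤ (N : ℝ) ^ (-τ) / 4}

/-- the conditions on the level -/
lemma conditions2 {κ τ σ ℓ : ℝ} (hκ0 : 0 < κ) (hκ1 : κ < 2) (hτ : 0 < τ) (hσ1 : σ < 1)
    (hℓ : 0 < ℓ) : ∀ᶠ N : ℕ in atTop,
      ((ydx κ N : ℕ) : ℝ) / (4 * Real.log (ydx κ N : ℕ)) ≤ ((primes (ydx κ N)).card : ℝ) ∧
      (N : ℝ) ^ (-τ) ≤ ℓ ∧ 1 ≤ (N : ℝ) ^ (κ / 2) / Real.log N ∧
      192 ≤ ℓ * (ydx κ N : ℕ) ∧ 32 ≤ ydx κ N ∧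
      24576 * ℓ ^ (σ - 1) ≤ Real.log N ∧ 1 ≤ Real.log (ydx κ N : ℕ) ∧
      24 * Real.log (ydx κ N : ℕ) ≤
        ℓ ^ (1 - σ) * ((ydx κ N : ℕ) : ℝ) ^ ((1 - (1 / 2 : ℝ)) * (1 - σ)) ∧
      2 ≤ ((ydx κ N : ℕ) : ℝ) ^ (1 / 2 : ℝ) ∧
      (N : ℝ) ^ (1 - κ / 2) * Real.log N / 2 ≤ (ydx κ N : ℕ) := by
  have hcast := tendsto_natCast_atTop_atTop (R := ℝ)
  have h1 : ∀ᶠ N : ℕ in atTop, (N : ℝ) ^ (-τ) ≤ ℓ := by
    have := (tendsto_rpow_neg_atTop hτ).comp hcast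
    exact this.eventually_le_const hℓ
  have h2 : ∀ᶠ N : ℕ in atTop, 1 ≤ (N : ℝ) ^ (κ / 2) / Real.log N := by
    have h3 : (fun x : ℝ => Real.log x) =o[atTop] fun x => x ^ (κ / 2) :=
      isLittleO_log_rpow_atTop (by positivity)
    have h4 := (h3.bound (by norm_num : (0 : ℝ) < 1))
    have h5 : ∀ᶠ x : ℝ in atTop, 1 ≤ x ^ (κ / 2) / Real.log x := by
      filter_upwards [h4, eventually_gt_atTop (1 : ℝ)] with x hx hx1
      have hx0 : 0 < x := by linarith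
      have hl : 0 < Real.log x := Real.log_pos hx1
      rw [Real.norm_of_nonneg hl.le, Real.norm_of_nonneg (by positivity), one_mul] at hx
      rw [le_div_iff₀ (by positivity), one_mul]
      exact hx
    exact hcast.eventually h5
  have h4 : ∀ᶠ N : ℕ in atTop, 24576 * ℓ ^ (σ - 1) ≤ Real.log N :=
    (Real.tendsto_log_atTop.comp hcast).eventually_ge_atTop _
  have h40 : ∀ᶠ N : ℕ in atTop, 1 ≤ Real.log N :=
    (Real.tendsto_log_atTop.comp hcast).eventually_ge_atTop _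
  -- the size of the bound for the prime
  have h3 : ∀ᶠ N : ℕ in atTop, 2 ≤ (N : ℝ) ^ (1 - κ / 2) :=
    ((tendsto_rpow_atTop (by linarith)).comp hcast).eventually_ge_atTop _
  have hY : ∀ᶠ N : ℕ in atTop, (N : ℝ) ^ (1 - κ / 2) * Real.log N / 2 ≤ (ydx κ N : ℕ) := by
    filter_upwards [h2, h3, h40, eventually_ge_atTop 1] with N a2 a3 a4 a5
    have hN0 : (0 : ℝ) < N := by exact_mod_cast a5
    have h6 : (0 : ℝ) < 3 ^ jdx κ N := by positivity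
    have h5 : (N : ℝ) / 3 ^ jdx κ N < (ydx κ N : ℕ) + 1 := by
      unfold ydx
      rw [div_lt_iff₀ h6]
      have h7 := Nat.lt_mul_of_div_lt (Nat.lt_succ_self (N / 3 ^ jdx κ N)) (by positivity)
      have h8 : (N : ℝ) < ((3 ^ jdx κ N * (N / 3 ^ jdx κ N).succ : ℕ) : ℝ) := by
        have h70 : N < 3 ^ jdx κ N * (N / 3 ^ jdx κ N).succ := by
          first | exact h7 | (rw [mul_comm]; exact h7)
        exact_mod_cast h70
      have h9 : ((3 ^ jdx κ N * (N / 3 ^ jdx κ N).succ : ℕ) : ℝ) =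
          (((N / 3 ^ jdx κ N : ℕ) : ℝ) + 1) * 3 ^ jdx κ N := by
        push_cast
        ring
      rw [h9] at h8
      exact h8
    have h7 : (N : ℝ) ^ (1 - κ / 2) * Real.log N ≤ (N : ℝ) / 3 ^ jdx κ N := by
      rw [le_div_iff₀ h6]
      have e : (N : ℝ) ^ (1 - κ / 2) * (N : ℝ) ^ (κ / 2) = N := by
        rw [← Real.rpow_add hN0]
        norm_num
      calc (N : ℝ) ^ (1 - κ / 2) * Real.log N * 3 ^ jdx κ N
          ≤ (N : ℝ) ^ (1 - κ / 2) * Real.log N * ((N : ℝ) ^ (κ / 2) / Real.log N) := by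
            apply mul_le_mul_of_nonneg_left (jdx_le a2)
            have : 0 ≤ (N : ℝ) ^ (1 - κ / 2) := by positivity
            positivity
        _ = (N : ℝ) ^ (1 - κ / 2) * (N : ℝ) ^ (κ / 2) := by
            have : Real.log N ≠ 0 := by linarith
            field_simp
        _ = N := e
    have h8 : 2 ≤ (N : ℝ) ^ (1 - κ / 2) * Real.log N := by nlinarith
    linarith
  have hYt : Tendsto (fun N : ℕ => ydx κ N) atTop atTop := by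
    rw [← tendsto_natCast_atTop_iff (R := ℝ)]
    have h5 : Tendsto (fun N : ℕ => (N : ℝ) ^ (1 - κ / 2) / 2) atTop atTop :=
      ((tendsto_rpow_atTop (by linarith)).comp hcast).atTop_div_const (by norm_num)
    refine tendsto_atTop_mono' _ ?_ h5
    filter_upwards [hY, h40, eventually_ge_atTop 1] with N a1 a2 a3
    refine le_trans ?_ a1
    have : 0 ≤ (N : ℝ) ^ (1 - κ / 2) := by positivity
    nlinarith
  have hYr : Tendsto (fun N : ℕ => ((ydx κ N : ℕ) : ℝ)) atTop atTop :=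
    tendsto_natCast_atTop_atTop.comp hYt
  have c1 : ∀ᶠ N : ℕ in atTop,
      ((ydx κ N : ℕ) : ℝ) / (4 * Real.log (ydx κ N : ℕ)) ≤ ((primes (ydx κ N)).card : ℝ) :=
    hYt.eventually card_primes
  have c4 : ∀ᶠ N : ℕ in atTop, 192 ≤ ℓ * (ydx κ N : ℕ) :=
    (hYr.const_mul_atTop hℓ).eventually_ge_atTop _
  have c5 : ∀ᶠ N : ℕ in atTop, 32 ≤ ydx κ N := hYt.eventually_ge_atTop _
  have c7 : ∀ᶠ N : ℕ in atTop, 1 ≤ Real.log (ydx κ N : ℕ) :=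
    (Real.tendsto_log_atTop.comp hYr).eventually_ge_atTop _
  have c9 : ∀ᶠ N : ℕ in atTop, 2 ≤ ((ydx κ N : ℕ) : ℝ) ^ (1 / 2 : ℝ) :=
    ((tendsto_rpow_atTop (by norm_num)).comp hYr).eventually_ge_atTop _
  have c8 : ∀ᶠ N : ℕ in atTop, 24 * Real.log (ydx κ N : ℕ) ≤
      ℓ ^ (1 - σ) * ((ydx κ N : ℕ) : ℝ) ^ ((1 - (1 / 2 : ℝ)) * (1 - σ)) := by
    have hp : 0 < (1 - (1 / 2 : ℝ)) * (1 - σ) := mul_pos (by norm_num) (by linarith)
    have h3 : (fun x : ℝ => Real.log x) =o[atTop] fun x => x ^ ((1 - (1 / 2 : ℝ)) * (1 - σ)) :=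
      isLittleO_log_rpow_atTop hp
    have h4 := h3.bound (c := ℓ ^ (1 - σ) / 24) (by positivity)
    have h5 : ∀ᶠ x : ℝ in atTop,
        24 * Real.log x ≤ ℓ ^ (1 - σ) * x ^ ((1 - (1 / 2 : ℝ)) * (1 - σ)) := by
      filter_upwards [h4, eventually_gt_atTop (1 : ℝ)] with x hx hx1
      have hx0 : 0 < x := by linarith
      have hl : 0 < Real.log x := Real.log_pos hx1
      rw [Real.norm_of_nonneg hl.le, Real.norm_of_nonneg (by positivity)] at hx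
      linarith
    exact hYr.eventually h5
  filter_upwards [c1, h1, h2, c4, c5, h4, c7, c8, c9, hY] with N a1 a2 a3 a4 a5 a6 a7 a8 a9 a10
  exact ⟨a1, a2, a3, a4, a5, a6, a7, a8, a9, a10⟩

/-- the step of the construction -/
theorem step2 {κ τ : ℝ} (hκ0 : 0 < κ) (hκ1 : κ < 2) (hτ : 2 ≤ τ) (n : ℕ) (ℓ : ℝ) (hℓ : 0 < ℓ)
    (hℓ1 : ℓ ≤ 3 / 4 - 1 / 4) : ∃ (ℓ' : ℝ) (T : ℕ), 0 < ℓ' ∧ ℓ' ≤ ℓ / 2 ∧
      2 ≤ T ∧ ℓ ^ ((2 - κ) / τ) ≤ T * ℓ' ^ ((2 - κ) / τ) ∧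
      ∀ w, 1 / 4 ≤ w → w + ℓ ≤ 3 / 4 → ∃ φ : ℕ → ℝ,
        (∀ j, j < T → w ≤ φ j ∧ φ j + ℓ' ≤ w + ℓ ∧ Icc (φ j) (φ j + ℓ') ⊆ Apx2 κ τ n) ∧
        ∀ i j : ℕ, i < j → j < T → φ i + ℓ' ≤ φ j ∧
          (j : ℝ) - i + 1 ≤ 192 * (ℓ ^ (-((2 - κ) / τ)) * T) * (φ j - φ i - ℓ') ^ ((2 - κ) / τ) := by
  set σ := (2 - κ) / τ with hσ
  have hτ0 : 0 < τ := by linarith
  have hσ0 : 0 < σ := div_pos (by linarith) hτ0
  have hσ1 : σ < 1 := by rw [hσ, div_lt_one hτ0]; linarith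
  obtain ⟨N, ⟨c1, c2, c3, c4, c5, c6, c7, c8, c9, c10⟩, hN2, hNn⟩ :=
    ((conditions2 hκ0 hκ1 hτ0 hσ1 hℓ).and
    ((eventually_ge_atTop 2).and (eventually_ge_atTop n))).exists
  have hN1 : (1 : ℝ) ≤ N := by exact_mod_cast (by omega : 1 ≤ N)
  have hN0 : (0 : ℝ) < N := by linarith
  set Lg := Real.log N with hLg
  have hYN : ydx κ N ≤ N := Nat.div_le_self _ _
  set Y : ℕ := ydx κ N with hY
  have hYNr : (Y : ℝ) ≤ N := by exact_mod_cast hYN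
  have hY1 : (1 : ℝ) ≤ Y := by exact_mod_cast (by omega : 1 ≤ Y)
  have hY0 : (0 : ℝ) < Y := by linarith
  set LY := Real.log Y with hLY
  have hLYL : LY ≤ Lg := Real.log_le_log hY0 hYNr
  have hLY0 : 0 < LY := by linarith
  have hLg0 : 0 < Lg := by linarith
  set B : ℝ := 3 ^ jdx κ N with hB
  have hB0 : 0 < B := by positivity
  set ρ : ℝ := 2 ^ idx2 κ N / B with hρ
  have hρ1 : 1 ≤ ρ := by
    rw [hρ, le_div_iff₀ hB0, one_mul, hB]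
    exact_mod_cast (lt_idx2 κ N).le
  have hρ2 : ρ ≤ 2 := by
    rw [hρ, div_le_iff₀ hB0, hB]
    exact_mod_cast idx2_le κ N
  have hρ0 : 0 < ρ := by linarith
  have hρN : ρ ≤ (Y : ℝ) ^ (1 / 2 : ℝ) := hρ2.trans c9
  set Pc : ℝ := ((primes Y).card : ℝ) with hPc
  have hPc0 : 0 < Pc := lt_of_lt_of_le (by positivity) c1
  have hPc1 : 1 ≤ Pc := by
    have h0 : 0 < (primes Y).card := by
      rw [hPc] at hPc0
      exact_mod_cast hPc0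
    rw [hPc]
    exact_mod_cast (h0 : 1 ≤ (primes Y).card)
  have hNρ : 96 ≤ ℓ * Y / ρ := by
    rw [le_div_iff₀ hρ0]
    linarith
  -- the number of points
  set T : ℕ := ⌊Pc * ℓ * Y / (48 * ρ)⌋₊ with hT
  have hX : 2 ≤ Pc * ℓ * Y / (48 * ρ) := by
    have e : Pc * ℓ * Y / (48 * ρ) = Pc * (ℓ * Y / ρ) / 48 := by ring
    rw [e]
    nlinarith
  have hT2 : 2 ≤ T := Nat.le_floor (by exact_mod_cast hX)
  have hT1 : (T : ℝ) ≤ Pc * ℓ * Y / (48 * ρ) := Nat.floor_le (by linarith)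
  have hT3 : Pc * ℓ * Y / (32 * ρ) ≤ 3 * (T : ℝ) := by
    have h1 := Nat.lt_floor_add_one (Pc * ℓ * Y / (48 * ρ))
    have e : Pc * ℓ * Y / (32 * ρ) = Pc * ℓ * Y / (48 * ρ) * (3 / 2) := by ring
    rw [e]
    linarith
  -- the length
  set ℓ' : ℝ := (N : ℝ) ^ (-τ) / 8 with hℓ'
  have hNτ : 0 < (N : ℝ) ^ (-τ) := Real.rpow_pos_of_pos hN0 _
  have hℓ'0 : 0 < ℓ' := by positivity
  have hℓ'N : ℓ' ≤ ρ / (Y : ℝ) ^ 2 / 8 := by
    have h1 : (N : ℝ) ^ (-τ) ≤ (N : ℝ) ^ (-(2 : ℝ)) :=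
      Real.rpow_le_rpow_of_exponent_le hN1 (by linarith)
    have h2 : (N : ℝ) ^ (-(2 : ℝ)) = 1 / (N : ℝ) ^ 2 := by
      rw [Real.rpow_neg hN0.le, one_div]
      norm_num
    calc ℓ' ≤ 1 / (N : ℝ) ^ 2 / 8 := by rw [hℓ', ← h2]; gcongr
      _ ≤ ρ / (Y : ℝ) ^ 2 / 8 := by gcongr
  refine ⟨ℓ', T, hℓ'0, by linarith, hT2, ?_, ?_⟩
  · -- the mass condition
    have h1 : (N : ℝ) ^ (-(2 - κ)) / 8 ≤ ℓ' ^ σ := by
      rw [hℓ', Real.div_rpow hNτ.le (by norm_num), ← Real.rpow_mul hN0.le]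
      have e : -τ * σ = -(2 - κ) := by
        rw [hσ]
        field_simp
      rw [e]
      apply div_le_div_of_nonneg_left (by positivity) (by positivity)
      calc (8 : ℝ) ^ σ ≤ 8 ^ (1 : ℝ) := Real.rpow_le_rpow_of_exponent_le (by norm_num) hσ1.le
        _ = 8 := Real.rpow_one 8
    have h2 : ℓ * (N : ℝ) ^ (2 - κ) * Lg / 3072 ≤ T := by
      have h5 : (N : ℝ) ^ (2 - κ) * Lg ^ 2 / 4 ≤ (Y : ℝ) ^ 2 := by
        calc (N : ℝ) ^ (2 - κ) * Lg ^ 2 / 4 = ((N : ℝ) ^ (1 - κ / 2) * Lg / 2) ^ 2 := by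
              rw [div_pow, mul_pow, ← Real.rpow_natCast ((N : ℝ) ^ (1 - κ / 2)) 2,
                ← Real.rpow_mul hN0.le]
              norm_num
              left
              congr 1
              ring
          _ ≤ (Y : ℝ) ^ 2 := by gcongr
      have h6 : ℓ * (Y : ℝ) ^ 2 / (768 * Lg) ≤ T := by
        have h7 : Pc * ℓ * Y / (32 * ρ) / 3 ≤ T := by linarith
        refine le_trans ?_ h7
        calc ℓ * (Y : ℝ) ^ 2 / (768 * Lg) = ((Y : ℝ) / (4 * Lg)) * ℓ * Y / (32 * 2) / 3 := by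
              field_simp
              norm_num
          _ ≤ ((Y : ℝ) / (4 * LY)) * ℓ * Y / (32 * ρ) / 3 := by gcongr
          _ ≤ Pc * ℓ * Y / (32 * ρ) / 3 := by gcongr
      refine le_trans ?_ h6
      rw [le_div_iff₀ (by positivity)]
      calc ℓ * (N : ℝ) ^ (2 - κ) * Lg / 3072 * (768 * Lg)
          = ℓ * ((N : ℝ) ^ (2 - κ) * Lg ^ 2 / 4) := by ring
        _ ≤ ℓ * (Y : ℝ) ^ 2 := by gcongr
    have h3 : (N : ℝ) ^ (2 - κ) * (N : ℝ) ^ (-(2 - κ)) = 1 := by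
      rw [← Real.rpow_add hN0, add_neg_cancel, Real.rpow_zero]
    have h4 : ℓ ^ σ = ℓ * ℓ ^ (σ - 1) := by
      rw [Real.rpow_sub hℓ, Real.rpow_one]
      field_simp
    calc ℓ ^ σ = ℓ * ℓ ^ (σ - 1) := h4
      _ ≤ ℓ * (Lg / 24576) := by
          apply mul_le_mul_of_nonneg_left _ hℓ.le
          linarith
      _ = (ℓ * ((N : ℝ) ^ (2 - κ) * (N : ℝ) ^ (-(2 - κ))) * Lg / 3072) / 8 := by
          rw [h3]
          ring
      _ = (ℓ * (N : ℝ) ^ (2 - κ) * Lg / 3072) * ((N : ℝ) ^ (-(2 - κ)) / 8) := by ring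
      _ ≤ T * ℓ' ^ σ := by gcongr
  intro w hw1 hw2
  set v := w + ℓ / 2 with hv
  have hw0 : 0 < w := by linarith
  have hv1 : v < 1 := by rw [hv]; linarith
  have hwv : w ≤ v := by rw [hv]; linarith
  have hbig : ∀ p ∈ primes Y, ρ ≤ w * p := by
    intro p hp
    have h1 : Y < 4 * p := (mem_primes.1 hp).2.1
    have h2 : (8 : ℝ) ≤ p := by exact_mod_cast (by omega : 8 ≤ p)
    nlinarith
  have hcard : T ≤ (G ρ Y w v).card := by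
    have h1 := le_card_G (ρ := ρ) (Y := Y) hρ1 hv1 hwv hbig
    have h2 : Pc * ℓ * Y / (48 * ρ) ≤ Pc * ((v - w) * Y / (12 * ρ) - 1) := by
      have e : Pc * ℓ * Y / (48 * ρ) = Pc * (ℓ * Y / ρ / 48) := by ring
      rw [e]
      apply mul_le_mul_of_nonneg_left _ hPc0.le
      have e2 : (v - w) * Y / (12 * ρ) = ℓ * Y / ρ / 24 := by
        rw [hv]
        ring
      rw [e2]
      linarith
    exact_mod_cast hT1.trans (h2.trans h1)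
  obtain ⟨φ, h1, h2⟩ := enum_real (G ρ Y w v) (ρ / (Y : ℝ) ^ 2) (G_sep hρ0 hwv hbig)
  have hmem : ∀ j, j < T → ∃ p m : ℕ, p ∈ primes Y ∧
      φ j = ρ * (3 * m + 1) / p ∧ w ≤ φ j ∧ φ j ≤ v := fun j hj =>
    (mem_G hρ0 hwv hbig).1 (h1 j (by omega))
  refine ⟨fun j => φ j + ℓ', fun j hj => ?_, fun i j hij hj => ?_⟩
  · obtain ⟨p, m, hp, hr, h3, h4⟩ := hmem j hj
    refine ⟨by linarith, ?_, ?_⟩
    · have : v = w + ℓ / 2 := hv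
      have : ℓ' = (N : ℝ) ^ (-τ) / 8 := hℓ'
      show φ j + ℓ' + ℓ' ≤ w + ℓ
      linarith
    · intro η hη
      rw [mem_Icc] at hη
      have hp' := mem_primes.1 hp
      have hp0 : (0 : ℝ) < p := by exact_mod_cast hp'.1.pos
      have hr' : φ j = (2 : ℝ) ^ idx2 κ N * (3 * m + 1) / (3 ^ jdx κ N * p) := by
        rw [hr, hρ, hB]
        field_simp
      refine ⟨N, hNn, p, m, hp'.1, hp'.2.1, hp'.2.2, ?_, ?_, ?_⟩
      · have h5 : φ j < 1 := by linarith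
        rw [hr', div_lt_one (by positivity)] at h5
        exact_mod_cast h5
      · rw [← hr']
        linarith [hη.1]
      · rw [← hr']
        have : ℓ' = (N : ℝ) ^ (-τ) / 8 := hℓ'
        linarith [hη.2]
  · obtain ⟨h3, h4, h5⟩ := h2 i j hij (by omega)
    set Δ := φ j - φ i with hΔ
    have hij' : (i : ℝ) + 1 ≤ j := by exact_mod_cast hij
    set D : ℝ := (j : ℝ) - i + 1 with hD
    have hρN2 : 0 < ρ / (Y : ℝ) ^ 2 := by positivity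
    have hΔ1 : ((j : ℝ) - i) * (ρ / (Y : ℝ) ^ 2) ≤ Δ := by rw [hΔ]; linarith
    have hΔ2 : ρ / (Y : ℝ) ^ 2 ≤ Δ := by
      refine le_trans ?_ hΔ1
      nlinarith
    have hgapΔ : 7 / 8 * Δ ≤ Δ - ℓ' := by linarith
    have hgap0 : 0 < Δ - ℓ' := by linarith
    have hgapeq : φ j + ℓ' - (φ i + ℓ') - ℓ' = Δ - ℓ' := by rw [hΔ]; ring
    refine ⟨by show φ i + ℓ' + ℓ' ≤ φ j + ℓ'; linarith, ?_⟩
    show D ≤ _
    rw [hgapeq]
    have hD0 : 0 < D := by rw [hD]; linarith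
    have hgapD : D * ρ / (3 * (Y : ℝ) ^ 2) ≤ Δ - ℓ' := by
      refine le_trans ?_ hgapΔ
      have e : D * ρ / (3 * (Y : ℝ) ^ 2) = D / 3 * (ρ / (Y : ℝ) ^ 2) := by
        field_simp
      rw [e]
      have : D / 3 ≤ 7 / 8 * ((j : ℝ) - i) := by rw [hD]; linarith
      calc D / 3 * (ρ / (Y : ℝ) ^ 2) ≤ 7 / 8 * ((j : ℝ) - i) * (ρ / (Y : ℝ) ^ 2) := by gcongr
        _ = 7 / 8 * (((j : ℝ) - i) * (ρ / (Y : ℝ) ^ 2)) := by ring
        _ ≤ _ := by linarith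
    obtain ⟨-, -, -, -, h6, -⟩ := hmem i (by omega)
    obtain ⟨-, -, -, -, -, h7⟩ := hmem j hj
    have hgapℓ : Δ - ℓ' ≤ ℓ := by
      have : v = w + ℓ / 2 := hv
      rw [hΔ]
      linarith
    have efin : 192 * (ℓ ^ (-σ) * (T : ℝ)) * (Δ - ℓ') ^ σ =
        64 * (ℓ ^ (-σ) * (3 * (T : ℝ))) * (Δ - ℓ') ^ σ := by ring
    rw [efin]
    rcases le_or_gt (4 * Pc) D with hc | hc
    · refine caseA hσ1 hℓ hY0 hρ0 hPc0 hT3 hgap0 hgapℓ (Δ := Δ) (by linarith) ?_ hc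
      have h8 := card_filter_G (ρ := ρ) (Y := Y) (w := w) (v := v) hρ0 hbig h6 h3.le
      refine le_trans ?_ h8
      have h9 : (((j - i + 1 : ℕ) : ℝ)) ≤
          (((G ρ Y w v).filter fun x => φ i ≤ x ∧ x ≤ φ j).card : ℝ) := by
        exact_mod_cast h5
      refine le_trans ?_ h9
      rw [hD, Nat.cast_add, Nat.cast_sub hij.le]
      push_cast
      linarith
    · exact caseB hσ0 hσ1 hℓ hY0 hρ0 hPc0 hT3 hD0 hgapD hc
        (param (κ := 1 / 2) hσ0 hσ1 hℓ hY1 hρ0 hρN c7 c1 c8)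

/-- **positive Hausdorff measure** -/
theorem pos_measure2 {κ τ : ℝ} (hκ0 : 0 < κ) (hκ1 : κ < 2) (hτ : 2 ≤ τ) :
    μH[(2 - κ) / τ] {α : ℝ | 1 / 4 ≤ α ∧ α ≤ 3 / 4 ∧ ∀ n, α ∈ Apx2 κ τ n} ≠ 0 := by
  have hτ0 : 0 < τ := by linarith
  have hσ0 : 0 < (2 - κ) / τ := div_pos (by linarith) hτ0
  exact hm_rec (s := ⟨(2 - κ) / τ, hσ0.le⟩) (C := 192) (NNReal.coe_pos.1 hσ0) (by norm_num)
    (by norm_num) (Apx2 κ τ) fun n ℓ hℓ hℓ1 => step2 hκ0 hκ1 hτ n ℓ hℓ hℓ1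

end Pool.Agent.Q273.CJ
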