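import Mathlib
import Pool.Agent.Q273.CJ.Qual
import Pool.Agent.Q273.CJ.Step2

/-!
# Numbers whose convergents have large quality
-/

set_option autoImplicit false

namespace Pool.Agent.Q273.CJ

open Set Filter Topology

open Q273.AbcR (R c abc F)

lemma size_cond {κ M' : ℝ} (hM0 : 0 < M') (hM : M' * (3 - κ) < 1) :
    ∀ᶠ N : ℕ in atTop, M' * Real.log (54 * (N : ℝ) ^ (3 - κ) * (Real.log N) ^ 2) <
      Real.log ((N : ℝ) / 8) := by
  set δ := 1 - M' * (3 - κ) with hδ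
  have hδ0 : 0 < δ := by linarith
  have h1 : ∀ᶠ x : ℝ in atTop, M' * Real.log 54 + Real.log 8 + 2 * M' * Real.log x < δ * x := by
    have h2 := Real.isLittleO_log_id_atTop.bound (c := δ / (8 * M')) (by positivity)
    filter_upwards [h2, eventually_gt_atTop (1 : ℝ),
      eventually_gt_atTop ((M' * Real.log 54 + Real.log 8) * (2 / δ))] with x h3 h4 h5
    rw [Real.norm_of_nonneg (Real.log_nonneg h4.le), id, Real.norm_of_nonneg (by linarith)] at h3
    have h6 : 2 * M' * Real.log x ≤ 2 * M' * (δ / (8 * M') * x) :=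
      mul_le_mul_of_nonneg_left h3 (by positivity)
    have h7 : 2 * M' * (δ / (8 * M') * x) = δ / 4 * x := by
      field_simp
      ring
    have h8 : M' * Real.log 54 + Real.log 8 < δ / 2 * x := by
      have e : M' * Real.log 54 + Real.log 8 =
        δ / 2 * ((M' * Real.log 54 + Real.log 8) * (2 / δ)) := by field_simp
      rw [e]
      gcongr
    nlinarith
  have h2 : Tendsto (fun N : ℕ => Real.log (N : ℝ)) atTop atTop :=
    Real.tendsto_log_atTop.comp tendsto_natCast_atTop_atTop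
  filter_upwards [h2.eventually h1, h2.eventually_gt_atTop 1, eventually_ge_atTop 2] with N a1 a2 a3
  have hN0 : (0 : ℝ) < N := by exact_mod_cast (by omega : 0 < N)
  have hL : 0 < Real.log N := by linarith
  rw [Real.log_mul (by positivity) (by positivity), Real.log_mul (by norm_num) (by positivity),
    Real.log_rpow hN0, Real.log_pow, Real.log_div hN0.ne' (by norm_num)]
  push_cast
  rw [hδ] at a1
  nlinarith

lemma R_fraction {i j p m d : ℕ} (hp : p.Prime) (hd : d ≠ 0) :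
    R (2 ^ i * (3 * m + 1) * (3 ^ j * p) * d) ≤ 6 * (3 * m + 1) * p * d := by
  have h2 : R (2 ^ i) ≤ 2 := R_pow_le Nat.prime_two i
  have h3 : R (3 ^ j) ≤ 3 := R_pow_le Nat.prime_three j
  have hp0 : p ≠ 0 := hp.ne_zero
  have h4 : R (2 ^ i * (3 * m + 1)) ≤ 2 * (3 * m + 1) :=
    (R_mul_le (by positivity) (by omega)).trans (Nat.mul_le_mul h2 (R_le (by omega)))
  have h5 : R (3 ^ j * p) ≤ 3 * p :=
    (R_mul_le (by positivity) hp0).trans (Nat.mul_le_mul h3 (R_le hp0))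
  have h6 : R (2 ^ i * (3 * m + 1) * (3 ^ j * p)) ≤ (2 * (3 * m + 1)) * (3 * p) :=
    (R_mul_le (by positivity) (by positivity)).trans (Nat.mul_le_mul h4 h5)
  calc R (2 ^ i * (3 * m + 1) * (3 ^ j * p) * d)
      ≤ R (2 ^ i * (3 * m + 1) * (3 ^ j * p)) * R d := R_mul_le (by positivity) hd
    _ ≤ (2 * (3 * m + 1)) * (3 * p) * d := Nat.mul_le_mul h6 (R_le hd)
    _ = _ := by ring

/-- **convergents of large quality** -/
theorem freq_quality {κ M' α : ℝ} (hκ0 : 0 < κ) (hκ1 : κ < 2) (hM0 : 0 < M')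
    (hM : M' * (3 - κ) < 1) (hA : ∀ n, α ∈ Apx2 κ 2 n) :
    ∃ᶠ n in atTop, M' < quality (α.convergent n) := by
  rw [frequently_atTop]
  intro n₀
  obtain ⟨D, hD⟩ : ∃ D : ℕ, ∀ n < n₀, (α.convergent n).den ≤ D :=
    ⟨∑ n ∈ Finset.range n₀, (α.convergent n).den, fun n hn =>
      Finset.single_le_sum (f := fun n => (α.convergent n).den) (fun _ _ => Nat.zero_le _)
        (Finset.mem_range.2 hn)⟩
  obtain ⟨n₁, hn₁⟩ := eventually_atTop.1 (((conditions2 (τ := 2) (σ := 0) (ℓ := 1) hκ0 hκ1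
    (by norm_num) (by norm_num) (by norm_num)).and (size_cond hM0 hM)).and
    ((eventually_ge_atTop 2).and (eventually_gt_atTop (8 * D))))
  obtain ⟨N, hN, p, m, hp, hp1, hp2, hlt, h1, h2⟩ := hA n₁
  obtain ⟨⟨⟨-, -, c3, -, c5, -, -, -, -, -⟩, hsize⟩, hN2, hND⟩ := hn₁ N hN
  set i := idx2 κ N with hi
  set j := jdx κ N with hj
  have hBi : 3 ^ j < 2 ^ i := lt_idx2 κ N
  have hYB : 3 ^ j * ydx κ N ≤ N := Nat.mul_div_le N _
  have hYB2 : N < 3 ^ j * (ydx κ N + 1) := by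
    have := Nat.lt_mul_div_succ N (show 0 < 3 ^ jdx κ N by positivity)
    exact this
  have hB0 : 0 < 3 ^ j := by positivity
  have hm : 3 * m + 1 < p := by
    by_contra hcon
    push Not at hcon
    have h3 : 3 ^ j * p ≤ 2 ^ i * (3 * m + 1) := Nat.mul_le_mul hBi.le hcon
    omega
  have hp9 : 9 ≤ p := by omega
  have hcop : Nat.Coprime (2 ^ i * (3 * m + 1)) (3 ^ j * p) := by
    apply Nat.Coprime.mul_left
    · apply Nat.Coprime.mul_right
      · exact Nat.Coprime.pow _ _ (by norm_num)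
      · apply Nat.Coprime.pow_left
        rw [Nat.coprime_primes Nat.prime_two hp]
        omega
    · apply Nat.Coprime.mul_right
      · apply Nat.Coprime.pow_right
        rw [Nat.coprime_comm, Nat.prime_three.coprime_iff_not_dvd]
        omega
      · rw [Nat.coprime_comm, hp.coprime_iff_not_dvd]
        intro h
        have := Nat.le_of_dvd (by omega) h
        omega
  have hden_le : 3 ^ j * p ≤ N := (Nat.mul_le_mul_left _ hp2).trans hYB
  have hden_ge : N < 8 * (3 ^ j * p) := by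
    have h3 : 3 ^ j * (ydx κ N + 1) ≤ 3 ^ j * (8 * p) := Nat.mul_le_mul_left _ (by omega)
    calc N < 3 ^ j * (ydx κ N + 1) := hYB2
      _ ≤ 3 ^ j * (8 * p) := h3
      _ = _ := by ring
  -- the rational number
  obtain ⟨r, hr⟩ : ∃ r : ℚ, r = ((2 ^ i * (3 * m + 1) : ℕ) : ℤ) / ((3 ^ j * p : ℕ) : ℤ) := ⟨_, rfl⟩
  have hdpos : (0 : ℤ) < ((3 ^ j * p : ℕ) : ℤ) := by
    have : 0 < 3 ^ j * p := by positivity
    exact_mod_cast this
  have hnum : r.num = ((2 ^ i * (3 * m + 1) : ℕ) : ℤ) := by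
    rw [hr]
    exact Rat.num_div_eq_of_coprime hdpos (by rw [Int.natAbs_natCast, Int.natAbs_natCast]; exact hcop)
  have hden : r.den = 3 ^ j * p := by
    have := Rat.den_div_eq_of_coprime (a := ((2 ^ i * (3 * m + 1) : ℕ) : ℤ)) hdpos
      (by rw [Int.natAbs_natCast, Int.natAbs_natCast]; exact hcop)
    rw [← hr] at this
    exact_mod_cast this
  have hrr : (r : ℝ) = (2 : ℝ) ^ i * (3 * m + 1) / (3 ^ j * p) := by
    rw [hr]
    push_cast
    ring
  rw [← hrr] at h1 h2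
  have hN0 : (0 : ℝ) < N := by exact_mod_cast (by omega : 0 < N)
  -- the rational number is a convergent
  have hleg : |α - (r : ℝ)| < 1 / (2 * (r.den : ℝ) ^ 2) := by
    rw [abs_of_pos h1]
    refine lt_of_le_of_lt h2 ?_
    have e : (N : ℝ) ^ (-(2 : ℝ)) = 1 / (N : ℝ) ^ 2 := by
      rw [Real.rpow_neg hN0.le, one_div]
      norm_num
    have h3 : (r.den : ℝ) ≤ N := by
      rw [hden]
      exact_mod_cast hden_le
    have h4 : (0 : ℝ) < r.den := by exact_mod_cast r.den_pos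
    rw [e, div_div, div_lt_div_iff₀ (by positivity) (by positivity)]
    have h5 : (r.den : ℝ) ^ 2 ≤ (N : ℝ) ^ 2 := by gcongr
    have h6 : (0 : ℝ) < (r.den : ℝ) ^ 2 := by positivity
    linarith
  obtain ⟨n, hn⟩ := Real.exists_rat_eq_convergent hleg
  refine ⟨n, ?_, ?_⟩
  · by_contra hcon
    push Not at hcon
    have h3 := hD n hcon
    rw [← hn, hden] at h3
    omega
  rw [← hn]
  -- the quality
  have hr0 : r ≠ 0 := by
    intro h
    rw [h] at hnum
    simp at hnum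
    omega
  have hr1 : r ≠ 1 := by
    intro h
    rw [h] at hnum hden
    simp only [Rat.num_ofNat, Rat.den_ofNat] at hnum hden
    omega
  have h3 := two_le_R hr0 hr1
  have hRpos : 0 < Real.log (R (abc r)) := Real.log_pos (by exact_mod_cast h3)
  unfold quality
  rw [lt_div_iff₀ hRpos]
  set d : ℕ := 3 ^ j * p - 2 ^ i * (3 * m + 1) with hd
  have hd0 : d ≠ 0 := by omega
  have hdN : d ≤ N := by omega
  have habc : abc r = 2 ^ i * (3 * m + 1) * (3 ^ j * p) * d := by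
    unfold abc
    rw [hnum, hden]
    have e1 : (((2 ^ i * (3 * m + 1) : ℕ) : ℤ)).natAbs = 2 ^ i * (3 * m + 1) := Int.natAbs_natCast _
    have e2 : (((2 ^ i * (3 * m + 1) : ℕ) : ℤ) - ((3 ^ j * p : ℕ) : ℤ)).natAbs = d := by
      rw [hd]
      omega
    rw [e1, e2]
  have hRle : R (abc r) ≤ 6 * (3 * m + 1) * p * d := by
    rw [habc]
    exact R_fraction hp hd0
  have hRN : R (abc r) * (3 ^ j * 3 ^ j) ≤ 6 * N ^ 3 := by
    have h5 : 3 ^ j * (3 * m + 1) ≤ N := by
      have : 3 ^ j * (3 * m + 1) ≤ 2 ^ i * (3 * m + 1) := Nat.mul_le_mul_right _ hBi.le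
      omega
    calc R (abc r) * (3 ^ j * 3 ^ j) ≤ 6 * (3 * m + 1) * p * d * (3 ^ j * 3 ^ j) :=
          Nat.mul_le_mul_right _ hRle
      _ = 6 * ((3 ^ j * (3 * m + 1)) * (3 ^ j * p) * d) := by ring
      _ ≤ 6 * (N * N * N) := by gcongr
      _ = 6 * N ^ 3 := by ring
  have hL0 : 0 < Real.log N := Real.log_pos (by exact_mod_cast (by omega : 1 < N))
  have hRr : (R (abc r) : ℝ) ≤ 54 * (N : ℝ) ^ (3 - κ) * (Real.log N) ^ 2 := by
    have h5 : (R (abc r) : ℝ) * ((3 : ℝ) ^ j * 3 ^ j) ≤ 6 * (N : ℝ) ^ 3 := by exact_mod_cast hRN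
    have h6 : (N : ℝ) ^ (κ / 2) / Real.log N < 3 * (3 : ℝ) ^ j := lt_jdx
    have h7 : (N : ℝ) ^ κ ≤ 9 * ((3 : ℝ) ^ j * 3 ^ j) * (Real.log N) ^ 2 := by
      rw [div_lt_iff₀ hL0] at h6
      calc (N : ℝ) ^ κ = ((N : ℝ) ^ (κ / 2)) ^ 2 := by
            rw [← Real.rpow_natCast, ← Real.rpow_mul hN0.le]
            norm_num
        _ ≤ (3 * (3 : ℝ) ^ j * Real.log N) ^ 2 := by gcongr
        _ = _ := by ring
    have h8 : (0 : ℝ) < (N : ℝ) ^ κ := by positivity
    have h9 : (R (abc r) : ℝ) * (N : ℝ) ^ κ ≤ 54 * (N : ℝ) ^ 3 * (Real.log N) ^ 2 := by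
      calc (R (abc r) : ℝ) * (N : ℝ) ^ κ
          ≤ (R (abc r) : ℝ) * (9 * ((3 : ℝ) ^ j * 3 ^ j) * (Real.log N) ^ 2) := by gcongr
        _ = ((R (abc r) : ℝ) * ((3 : ℝ) ^ j * 3 ^ j)) * (9 * (Real.log N) ^ 2) := by ring
        _ ≤ (6 * (N : ℝ) ^ 3) * (9 * (Real.log N) ^ 2) := by gcongr
        _ = _ := by ring
    have e : (N : ℝ) ^ (3 - κ) = (N : ℝ) ^ 3 / (N : ℝ) ^ κ := by
      rw [Real.rpow_sub hN0]
      norm_num
    rw [e, mul_div_assoc', div_mul_eq_mul_div, le_div_iff₀ h8]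
    exact h9
  have hcr : (N : ℝ) / 8 ≤ c r := by
    have h5 : r.den ≤ c r := (le_max_right _ _).trans (le_max_left _ _)
    rw [hden] at h5
    have h6 : N ≤ 8 * c r := by omega
    have h7 : (N : ℝ) ≤ 8 * c r := by exact_mod_cast h6
    linarith
  calc M' * Real.log (R (abc r)) ≤ M' * Real.log (54 * (N : ℝ) ^ (3 - κ) * (Real.log N) ^ 2) := by
        apply mul_le_mul_of_nonneg_left _ hM0.le
        exact Real.log_le_log (by exact_mod_cast R_pos _) hRr
    _ < Real.log ((N : ℝ) / 8) := hsize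
    _ ≤ Real.log (c r) := Real.log_le_log (by positivity) hcr

end Pool.Agent.Q273.CJ
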