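import Mathlib
import Pool.Agent.Q273.CJ.Low

/-!
# The spectrum of the qualities of the convergents
-/

set_option autoImplicit false

namespace Pool.Agent.Q273.CJ

open Set Filter Topology MeasureTheory
open scoped ENNReal NNReal

open Q273.AbcR (R c abc)

/-- the limit superior of the qualities of the convergents -/
noncomputable def expo (ξ : ℝ) : EReal :=
  Filter.limsup (fun n => ((quality (ξ.convergent n) : ℝ) : EReal)) Filter.atTop

lemma freq_of_lt {ξ M : ℝ} (h : (M : EReal) < expo ξ) :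
    ∃ᶠ n in atTop, M < quality (ξ.convergent n) :=
  (Filter.frequently_lt_of_lt_limsup (by isBoundedDefault) h).mono fun n hn => by
    exact_mod_cast hn

lemma ev_of_gt {ξ M : ℝ} (h : expo ξ < (M : EReal)) :
    ∀ᶠ n in atTop, quality (ξ.convergent n) < M :=
  (Filter.eventually_lt_of_limsup_lt h (by isBoundedDefault)).mono fun n hn => by
    exact_mod_cast hn

lemma expo_le {ξ M : ℝ} (h : ∀ᶠ n in atTop, quality (ξ.convergent n) ≤ M) :
    expo ξ ≤ (M : EReal) :=
  Filter.limsup_le_of_le (by isBoundedDefault) (h.mono fun n hn => by exact_mod_cast hn)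

lemma le_expo {ξ M : ℝ} (h : ∀ M' < M, 0 < M' → ∃ᶠ n in atTop, M' < quality (ξ.convergent n))
    (hM : 0 < M) : (M : EReal) ≤ expo ξ := by
  by_contra hcon
  push Not at hcon
  obtain ⟨x, h1, h2⟩ := EReal.lt_iff_exists_real_btwn.1 hcon
  have h2' : x < M := by exact_mod_cast h2
  have h3 : expo ξ < ((max x (M / 2) : ℝ) : EReal) :=
    lt_of_lt_of_le h1 (by exact_mod_cast le_max_left _ _)
  have h4 := ev_of_gt h3
  have h5 := h (max x (M / 2)) (max_lt h2' (by linarith)) (lt_max_of_lt_right (by linarith))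
  obtain ⟨n, h6, h7⟩ := (h5.and_eventually h4).exists
  linarith

lemma third_le_expo {ξ : ℝ} (hξ : Irrational ξ) : ((1 / 3 : ℝ) : EReal) ≤ expo ξ := by
  apply le_expo _ (by norm_num)
  intro M' hM' _
  exact ((eventually_third hξ).mono fun n hn => lt_of_lt_of_le hM' hn).frequently

lemma F_add {x y : ℝ} (hx : 0 < x) (hy : 0 ≤ y) : Q273.AbcR.F (x + y) ≤ Q273.AbcR.F x + y := by
  unfold Q273.AbcR.F
  split_ifs <;> linarith

lemma F_lt {x y : ℝ} (hy : 2 < y) (hxy : x < y) : Q273.AbcR.F x < y - 1 := by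
  unfold Q273.AbcR.F
  split_ifs <;> linarith

lemma F_eq {y : ℝ} (hy : 2 ≤ y) : Q273.AbcR.F y = y - 1 := by
  rcases hy.eq_or_lt with h | h
  · unfold Q273.AbcR.F
    split_ifs <;> linarith
  · unfold Q273.AbcR.F
    split_ifs <;> linarith

/-- the sets of large exponent -/
def Big (M : ℝ) : Set ℝ := {ξ : ℝ | Irrational ξ ∧ (M : EReal) ≤ expo ξ}

/-- **upper bound** -/
theorem dim_big_le {M : ℝ} (hM : 0 < M) : dimH (Big M) ≤ ENNReal.ofReal (Q273.AbcR.F (1 / M) / 2) := by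
  apply ENNReal.le_of_forall_pos_le_add
  intro ε hε _
  have hε' : (0 : ℝ) < ε := by exact_mod_cast hε
  set M' := 1 / (1 / M + 2 * ε) with hM'
  have hM'0 : 0 < M' := by positivity
  have hM'1 : M' < M := by
    rw [hM', div_lt_iff₀ (by positivity), mul_add, mul_one_div_cancel hM.ne']
    have : 0 < M * (2 * ε) := by positivity
    linarith
  have e : 1 / M' = 1 / M + 2 * ε := by rw [hM', one_div_one_div]
  obtain ⟨E, hE1, hE2⟩ := exc_quality hM'0
  have hsub : Big M ⊆ E := by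
    rintro ξ ⟨h1, h2⟩
    by_contra hcon
    have h3 := expo_le (hE2 ξ h1 hcon)
    have h4 : (M : EReal) ≤ M' := h2.trans h3
    have h5 : M ≤ M' := by exact_mod_cast h4
    linarith
  refine (dimH_mono hsub).trans (hE1.trans ?_)
  have h6 : Q273.AbcR.F (1 / M') / 2 ≤ Q273.AbcR.F (1 / M) / 2 + ε := by
    rw [e]
    have := F_add (x := 1 / M) (y := 2 * ε) (by positivity) (by positivity)
    linarith
  calc ENNReal.ofReal (Q273.AbcR.F (1 / M') / 2) ≤ ENNReal.ofReal (Q273.AbcR.F (1 / M) / 2 + ε) :=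
        ENNReal.ofReal_le_ofReal h6
    _ ≤ ENNReal.ofReal (Q273.AbcR.F (1 / M) / 2) + ENNReal.ofReal ε := ENNReal.ofReal_add_le
    _ = _ := by rw [ENNReal.ofReal_coe_nnreal]

/-- **positive measure** -/
theorem big_measure {M : ℝ} (hM1 : 1 / 3 < M) (hM2 : M < 1) :
    ∃ A : Set ℝ, (∀ ξ ∈ A, Irrational ξ → (M : EReal) ≤ expo ξ) ∧ μH[(1 - M) / (2 * M)] A ≠ 0 := by
  have hM0 : 0 < M := by linarith
  have h1 : 1 / M < 3 := by rw [div_lt_iff₀ hM0]; linarith
  have h2 : 1 < 1 / M := by rw [lt_div_iff₀ hM0]; linarith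
  have h3 := pos_measure2 (κ := 3 - 1 / M) (τ := 2) (by linarith) (by linarith) le_rfl
  have e : (2 - (3 - 1 / M)) / 2 = (1 - M) / (2 * M) := by
    field_simp
    ring
  rw [e] at h3
  refine ⟨_, fun ξ hξ _ => ?_, h3⟩
  apply le_expo _ hM0
  intro M' hM' hM'0
  refine freq_quality (κ := 3 - 1 / M) (by linarith) (by linarith) hM'0 ?_ hξ.2.2
  have e2 : 3 - (3 - 1 / M) = 1 / M := by ring
  rw [e2, mul_one_div, div_lt_one hM0]
  exact hM'

lemma null_of_dim {A : Set ℝ} {s : ℝ} (hs : 0 ≤ s) (h : dimH A < ENNReal.ofReal s) :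
    μH[s] A = 0 := by
  have h1 : dimH A < ((s.toNNReal : ℝ≥0) : ℝ≥0∞) := h
  have h2 := hausdorffMeasure_of_dimH_lt h1
  rwa [Real.coe_toNNReal s hs] at h2

lemma measure_rat {s : ℝ} (hs : 0 < s) : μH[s] {ξ : ℝ | ¬ Irrational ξ} = 0 := by
  have h1 : ({ξ : ℝ | ¬ Irrational ξ}).Countable := by
    have : {ξ : ℝ | ¬ Irrational ξ} = Set.range ((↑) : ℚ → ℝ) := by
      ext ξ
      simp [Irrational]
    rw [this]
    exact Set.countable_range _
  apply null_of_dim hs.le
  rw [h1.dimH_zero]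
  exact ENNReal.ofReal_pos.2 hs

lemma le_dim {A : Set ℝ} {s : ℝ} (hs : 0 ≤ s) (h : μH[s] A ≠ 0) : ENNReal.ofReal s ≤ dimH A := by
  by_contra hcon
  push Not at hcon
  exact h (null_of_dim hs hcon)

/-- **lower bound** -/
theorem le_dim_big {M : ℝ} (hM1 : 1 / 3 < M) (hM2 : M < 1) :
    ENNReal.ofReal ((1 - M) / (2 * M)) ≤ dimH (Big M) := by
  have hs : 0 < (1 - M) / (2 * M) := div_pos (by linarith) (by linarith)
  obtain ⟨A, hA1, hA2⟩ := big_measure hM1 hM2
  apply le_dim hs.le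
  intro hzero
  apply hA2
  have hsub : A ⊆ Big M ∪ {ξ : ℝ | ¬ Irrational ξ} := by
    intro ξ hξ
    by_cases h : Irrational ξ
    · exact Or.inl ⟨h, hA1 ξ hξ h⟩
    · exact Or.inr h
  exact measure_mono_null hsub (measure_union_null hzero (measure_rat hs))

lemma dim_big_lt {M M' : ℝ} (hM0 : 0 < M) (hM2 : M < 1 / 2) (hM' : M < M') :
    dimH (Big M') < ENNReal.ofReal ((1 - M) / (2 * M)) := by
  have h1 : 1 / M' < 1 / M := one_div_lt_one_div_of_lt hM0 hM'
  have h2 : 2 < 1 / M := by rw [lt_div_iff₀ hM0]; linarith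
  have h3 := F_lt h2 h1
  refine lt_of_le_of_lt (dim_big_le (hM0.trans hM')) ?_
  have hs : 0 < (1 - M) / (2 * M) := div_pos (by linarith) (by linarith)
  rw [ENNReal.ofReal_lt_ofReal_iff hs]
  have e : (1 - M) / (2 * M) = (1 / M - 1) / 2 := by field_simp
  rw [e]
  linarith

/-- the union of the sets of exponent larger than `M` -/
lemma measure_union_big {M : ℝ} (hM0 : 0 < M) (hM2 : M < 1 / 2) :
    μH[(1 - M) / (2 * M)] (⋃ k : ℕ, Big (M + 1 / ((k : ℝ) + 1))) = 0 := by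
  rw [measure_iUnion_null_iff]
  intro k
  have hs : 0 < (1 - M) / (2 * M) := div_pos (by linarith) (by linarith)
  have h1 : M < M + 1 / ((k : ℝ) + 1) := by
    have : 0 < 1 / ((k : ℝ) + 1) := by positivity
    linarith
  exact null_of_dim hs.le (dim_big_lt hM0 hM2 h1)

lemma eq_of_not_mem {M ξ : ℝ} (hξ : Irrational ξ) (h1 : (M : EReal) ≤ expo ξ)
    (h2 : ξ ∉ ⋃ k : ℕ, Big (M + 1 / ((k : ℝ) + 1))) : expo ξ = M := by
  refine le_antisymm ?_ h1
  by_contra hcon
  push Not at hcon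
  obtain ⟨x, h3, h4⟩ := EReal.lt_iff_exists_real_btwn.1 hcon
  have h3' : M < x := by exact_mod_cast h3
  obtain ⟨k, hk⟩ := exists_nat_one_div_lt (sub_pos.2 h3')
  apply h2
  rw [mem_iUnion]
  refine ⟨k, hξ, le_trans ?_ h4.le⟩
  exact_mod_cast (by linarith : M + 1 / ((k : ℝ) + 1) ≤ x)

/-- **level sets** -/
theorem le_dim_level {M : ℝ} (hM1 : 1 / 3 < M) (hM2 : M < 1 / 2) :
    ENNReal.ofReal ((1 - M) / (2 * M)) ≤ dimH {ξ : ℝ | Irrational ξ ∧ expo ξ = M} := by
  have hs : 0 < (1 - M) / (2 * M) := div_pos (by linarith) (by linarith)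
  obtain ⟨A, hA1, hA2⟩ := big_measure hM1 (by linarith)
  apply le_dim hs.le
  intro hzero
  apply hA2
  have hsub : A ⊆ ({ξ : ℝ | Irrational ξ ∧ expo ξ = M} ∪
      ⋃ k : ℕ, Big (M + 1 / ((k : ℝ) + 1))) ∪ {ξ : ℝ | ¬ Irrational ξ} := by
    intro ξ hξ
    by_cases h : Irrational ξ
    · left
      by_cases h2 : ξ ∈ ⋃ k : ℕ, Big (M + 1 / ((k : ℝ) + 1))
      · exact Or.inr h2
      · exact Or.inl ⟨h, eq_of_not_mem h (hA1 ξ hξ h) h2⟩
    · exact Or.inr h
  exact measure_mono_null hsub (measure_union_null (measure_union_null hzero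
    (measure_union_big (by linarith) hM2)) (measure_rat hs))

/-- almost all numbers have exponent `1 / 3` -/
theorem ae_expo : ∀ᵐ ξ : ℝ, Irrational ξ ∧ expo ξ = ((1 / 3 : ℝ) : EReal) := by
  have e : (1 - (1 / 3 : ℝ)) / (2 * (1 / 3)) = 1 := by norm_num
  have h1 := measure_union_big (M := 1 / 3) (by norm_num) (by norm_num)
  rw [e, hausdorffMeasure_real] at h1
  have h2 := measure_rat (s := 1) one_pos
  rw [hausdorffMeasure_real] at h2
  have h3 := measure_union_null h1 h2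
  refine measure_mono_null ?_ h3
  intro ξ hξ
  by_contra hcon
  rw [mem_union, not_or] at hcon
  have h4 : Irrational ξ := by
    by_contra h
    exact hcon.2 h
  exact hξ ⟨h4, eq_of_not_mem h4 (third_le_expo h4) hcon.1⟩

lemma tendsto_of_expo {ξ : ℝ} (hξ : Irrational ξ) (h : expo ξ = ((1 / 3 : ℝ) : EReal)) :
    Tendsto (fun n => quality (ξ.convergent n)) atTop (𝓝 (1 / 3)) := by
  rw [Metric.tendsto_nhds]
  intro ε hε
  have h1 : expo ξ < ((1 / 3 + ε : ℝ) : EReal) := by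
    rw [h]
    exact_mod_cast (by linarith : (1 / 3 : ℝ) < 1 / 3 + ε)
  filter_upwards [ev_of_gt h1, eventually_third hξ] with n h2 h3
  rw [Real.dist_eq, abs_of_nonneg (by linarith)]
  linarith

/-- a set of full measure has dimension one -/
lemma dim_of_ae {A : Set ℝ} (h : ∀ᵐ ξ : ℝ, ξ ∈ A) : 1 ≤ dimH A := by
  have h1 : μH[((1 : ℝ≥0) : ℝ)] A ≠ 0 := by
    rw [NNReal.coe_one, hausdorffMeasure_real]
    intro h2
    have h3 : volume (univ : Set ℝ) = 0 := by
      have h4 : (univ : Set ℝ) ⊆ A ∪ Aᶜ := by simp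
      exact measure_mono_null h4 (measure_union_null h2 h)
    simp at h3
  have := le_dimH_of_hausdorffMeasure_ne_zero h1
  simpa using this

end Pool.Agent.Q273.CJ
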